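import Pool.Agent.H57.Chrom.Main

set_option autoImplicit false

/-!
# The closed region
-/

namespace Pool.Agent.H57.Chrom

open Metric

theorem norm_gt_one {x y : ℝ} {z : ℂ} (hx : z.re = x) (hy : z.im = y) (h : 1 < x ^ 2 + y ^ 2) :
    1 < ‖z‖ := by
  have h1 : ‖z‖ ^ 2 = x ^ 2 + y ^ 2 := by
    rw [← Complex.normSq_eq_norm_sq, Complex.normSq_apply, hx, hy]
    ring
  nlinarith [norm_nonneg z]

theorem norm_ge_one {x y : ℝ} {z : ℂ} (hx : z.re = x) (hy : z.im = y) (h : 1 ≤ ‖z‖) :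
    1 ≤ x ^ 2 + y ^ 2 := by
  have h1 : ‖z‖ ^ 2 = x ^ 2 + y ^ 2 := by
    rw [← Complex.normSq_eq_norm_sq, Complex.normSq_apply, hx, hy]
    ring
  nlinarith

theorem mem_closure_of_le {z : ℂ} (h1 : 1 ≤ ‖z - 1‖) (h2 : 1 ≤ ‖z - 2‖) :
    z ∈ closure planarRoots := by
  have e1 := norm_ge_one (x := z.re - 1) (y := z.im) (by simp) (by simp) h1
  have e2 := norm_ge_one (x := z.re - 2) (y := z.im) (by simp) (by simp) h2
  rw [← closure_closure, Metric.mem_closure_iff]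
  intro δ hδ
  set t : ℝ := δ / (‖z - 3 / 2‖ + 1) with ht
  have hd : 0 < ‖z - 3 / 2‖ + 1 := by positivity
  have htp : 0 < t := by positivity
  set u : ℝ := z.re - 3 / 2 with hu
  set v : ℝ := z.im with hv
  have f1 : 1 ≤ (u + 1 / 2) ^ 2 + v ^ 2 := by
    have : u + 1 / 2 = z.re - 1 := by
      rw [hu]
      ring
    rw [this]
    exact e1
  have f2 : 1 ≤ (u - 1 / 2) ^ 2 + v ^ 2 := by
    have : u - 1 / 2 = z.re - 2 := by
      rw [hu]
      ring
    rw [this]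
    exact e2
  have g3 : 0 < t ^ 2 * (u ^ 2 + v ^ 2) := by
    have : 0 < u ^ 2 + v ^ 2 := by nlinarith
    positivity
  have g1 : 1 < ((1 + t) * u + 1 / 2) ^ 2 + ((1 + t) * v) ^ 2 := by
    have : 3 / 2 ≤ u + 2 * u ^ 2 + 2 * v ^ 2 := by nlinarith
    nlinarith [mul_le_mul_of_nonneg_left this htp.le]
  have g2 : 1 < ((1 + t) * u - 1 / 2) ^ 2 + ((1 + t) * v) ^ 2 := by
    have : 3 / 2 ≤ -u + 2 * u ^ 2 + 2 * v ^ 2 := by nlinarith
    nlinarith [mul_le_mul_of_nonneg_left this htp.le]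
  refine ⟨z + t * (z - 3 / 2), near ?_ ?_, ?_⟩
  · refine norm_gt_one (x := (1 + t) * u + 1 / 2) (y := (1 + t) * v) ?_ ?_ g1
    · simp [hu]
      norm_num
      ring
    · simp [hv]
      ring
  · refine norm_gt_one (x := (1 + t) * u - 1 / 2) (y := (1 + t) * v) ?_ ?_ g2
    · simp [hu]
      norm_num
      ring
    · simp [hv]
      ring
  · rw [dist_self_add_right, norm_mul, Complex.norm_real, Real.norm_eq_abs, abs_of_pos htp, ht]
    rw [div_mul_eq_mul_div, div_lt_iff₀ hd]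
    nlinarith [norm_nonneg (z - 3 / 2)]

end Pool.Agent.H57.Chrom
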