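import Pool.Agent.H57.Chrom.Count

set_option autoImplicit false

/-!
# Counting the colourings of the chain and of the whole graph
-/

namespace Pool.Agent.H57.Chrom

open Finset

open scoped Classical

variable {C : Type} [Fintype C]

/-- weighted colourings of a chain whose first vertex has colour `a` -/
noncomputable def TT (F : C → C → ℤ) (n : ℕ) (a : C) : ℤ :=
  ∑ c : Fin n → C, ∏ i : Fin n, F ((Fin.cons a c : Fin (n + 1) → C) i.castSucc) (c i)

theorem TT_zero (F : C → C → ℤ) (a : C) : TT F 0 a = 1 := by simp [TT]

theorem TT_succ (F : C → C → ℤ) (n : ℕ) (a : C) :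
    TT F (n + 1) a = ∑ b, F a b * TT F n b := by
  rw [TT, sum_cons]
  refine Finset.sum_congr rfl fun b _ => ?_
  rw [TT, Finset.mul_sum]
  refine Finset.sum_congr rfl fun c _ => ?_
  rw [Fin.prod_univ_succ]
  congr 1

theorem chain_sum (F : C → C → ℤ) (n : ℕ) :
    ∑ c : Fin (n + 1) → C, ∏ i : Fin n, F (c i.castSucc) (c i.succ) = ∑ a, TT F n a := by
  rw [sum_cons]
  rfl

/-- the weight of an edge of the chain -/
noncomputable def FF (w : ℤ × ℤ × ℤ) (x y l r : C) : ℤ :=
  if l ≠ r then val w x l r * val w y l r else 0

theorem TT_same (w : ℤ × ℤ × ℤ) (x : C) (n : ℕ) (a : C) :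
    TT (FF w x x) n a = if a = x then (Eq2 (cq C) w n).1 else (Eq2 (cq C) w n).2 := by
  induction n generalizing a with
  | zero => simp [TT_zero, Eq2]
  | succ n ih =>
    rw [TT_succ, Eq2]
    by_cases ha : a = x
    · subst ha
      have e : ∀ b, FF w a a a b * TT (FF w a a) n b =
          if a ≠ b then w.2.1 ^ 2 * (Eq2 (cq C) w n).2 else 0 := by
        intro b
        by_cases hb : a = b
        · subst hb
          simp [FF]
        · rw [ih b, if_neg (Ne.symm hb), FF, if_pos hb, if_pos hb, val_l]
          ring
      rw [Finset.sum_congr rfl fun b _ => e b, sum_excl1' a, sum_const', if_pos rfl]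
      ring
    · have e : ∀ b, FF w x x a b * TT (FF w x x) n b =
          if a ≠ b then (w.1 ^ 2 * (Eq2 (cq C) w n).2 + if b = x then
            (w.2.2 ^ 2 * (Eq2 (cq C) w n).1 - w.1 ^ 2 * (Eq2 (cq C) w n).2) else 0) else 0 := by
        intro b
        by_cases hb : a = b
        · subst hb
          simp [FF]
        · rw [ih b, FF, if_pos hb, if_pos hb]
          by_cases hx : b = x
          · subst hx
            rw [val_r w _ _ ha]
            simp
            left
            ring
          · rw [val_o w _ _ _ (Ne.symm ha) (Ne.symm hx)]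
            simp [hx]
            left
            ring
      rw [Finset.sum_congr rfl fun b _ => e b, sum_excl1' a, Finset.sum_add_distrib, sum_const',
        if_neg ha]
      simp [ha]
      ring

theorem TT_diff (w : ℤ × ℤ × ℤ) (x y : C) (hxy : x ≠ y) (n : ℕ) (a : C) :
    TT (FF w x y) n a =
      if a = x ∨ a = y then (Ne2 (cq C) w n).1 else (Ne2 (cq C) w n).2 := by
  induction n generalizing a with
  | zero => simp [TT_zero, Ne2]
  | succ n ih =>
    rw [TT_succ, Ne2]
    by_cases ha : a = x
    · subst ha
      have e : ∀ b, FF w a y a b * TT (FF w a y) n b =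
          if a ≠ b then (w.2.1 * w.1 * (Ne2 (cq C) w n).2 + if b = y then
            (w.2.1 * w.2.2 * (Ne2 (cq C) w n).1 - w.2.1 * w.1 * (Ne2 (cq C) w n).2) else 0)
            else 0 := by
        intro b
        by_cases hb : a = b
        · subst hb
          simp [FF]
        · rw [ih b, FF, if_pos hb, if_pos hb, val_l]
          by_cases hy : b = y
          · subst hy
            rw [val_r w _ _ hb]
            simp
          · rw [val_o w _ _ _ (Ne.symm hxy) (Ne.symm hy)]
            simp [hy, Ne.symm hb]
      rw [Finset.sum_congr rfl fun b _ => e b, sum_excl1' a, Finset.sum_add_distrib, sum_const',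
        if_pos (Or.inl rfl)]
      simp [hxy]
      ring
    · by_cases ha' : a = y
      · subst ha'
        have e : ∀ b, FF w x a a b * TT (FF w x a) n b =
            if a ≠ b then (w.2.1 * w.1 * (Ne2 (cq C) w n).2 + if b = x then
              (w.2.1 * w.2.2 * (Ne2 (cq C) w n).1 - w.2.1 * w.1 * (Ne2 (cq C) w n).2) else 0)
              else 0 := by
          intro b
          by_cases hb : a = b
          · subst hb
            simp [FF]
          · rw [ih b, FF, if_pos hb, if_pos hb, val_l]
            by_cases hy : b = x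
            · subst hy
              rw [val_r w _ _ hb]
              simp
              left
              ring
            · rw [val_o w _ _ _ hxy (Ne.symm hy)]
              simp [hy, Ne.symm hb]
              left
              ring
        rw [Finset.sum_congr rfl fun b _ => e b, sum_excl1' a, Finset.sum_add_distrib, sum_const',
          if_pos (Or.inr rfl)]
        simp [ha]
        ring
      · have e : ∀ b, FF w x y a b * TT (FF w x y) n b =
            if a ≠ b then ((w.1 ^ 2 * (Ne2 (cq C) w n).2 + if b = x then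
              (w.2.2 * w.1 * (Ne2 (cq C) w n).1 - w.1 ^ 2 * (Ne2 (cq C) w n).2) else 0) +
              if b = y then
              (w.2.2 * w.1 * (Ne2 (cq C) w n).1 - w.1 ^ 2 * (Ne2 (cq C) w n).2) else 0)
              else 0 := by
          intro b
          by_cases hb : a = b
          · subst hb
            simp [FF]
          · rw [ih b, FF, if_pos hb, if_pos hb]
            by_cases hx : b = x
            · subst hx
              rw [val_r w _ _ hb, val_o w y a b (Ne.symm ha') (Ne.symm hxy)]
              simp [hxy]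
            · by_cases hy : b = y
              · subst hy
                rw [val_r w _ _ hb, val_o w x a b (Ne.symm ha) hxy]
                simp [hx]
                left
                ring
              · rw [val_o w x a b (Ne.symm ha) (Ne.symm hx),
                  val_o w y a b (Ne.symm ha') (Ne.symm hy)]
                simp [hx, hy]
                left
                ring
        rw [Finset.sum_congr rfl fun b _ => e b, sum_excl1' a, Finset.sum_add_distrib,
          Finset.sum_add_distrib, sum_const', if_neg (not_or.2 ⟨ha, ha'⟩)]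
        simp [ha, ha']
        ring

theorem hub_sum (f : C → C → ℤ) (s t : ℤ) (hs : ∀ x, f x x = s) (ht : ∀ x y, x ≠ y → f x y = t) :
    ∑ h : Bool → C, f (h false) (h true) = cq C * s + cq C * (cq C - 1) * t := by
  have e1 : ∑ h : Bool → C, f (h false) (h true) = ∑ p : C × C, f p.1 p.2 :=
    Fintype.sum_equiv (Equiv.boolArrowEquivProd C) _ _ (fun h => rfl)
  rw [e1, Fintype.sum_prod_type]
  have e2 : ∀ x y, f x y = t + if y = x then s - t else 0 := by
    intro x y
    by_cases h : y = x
    · subst h
      simp [hs]
    · simp [h, ht x y (Ne.symm h)]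
  have e3 : ∀ x, ∑ y, f x y = cq C * t + (s - t) := by
    intro x
    rw [Finset.sum_congr rfl fun y _ => e2 x y, Finset.sum_add_distrib, sum_const']
    simp
  rw [Finset.sum_congr rfl fun x _ => e3 x, sum_const']
  ring

theorem total_sum (w : ℤ × ℤ × ℤ) (n : ℕ) :
    ∑ h : Bool → C, ∑ a, TT (FF w (h false) (h true)) n a = tot (cq C) w n := by
  rw [hub_sum (fun x y => ∑ a, TT (FF w x y) n a)
    ((Eq2 (cq C) w n).1 + (cq C - 1) * (Eq2 (cq C) w n).2)
    (2 * (Ne2 (cq C) w n).1 + (cq C - 2) * (Ne2 (cq C) w n).2)]
  · rfl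
  · intro x
    have e : ∀ a, TT (FF w x x) n a = (Eq2 (cq C) w n).2 +
        if a = x then (Eq2 (cq C) w n).1 - (Eq2 (cq C) w n).2 else 0 := by
      intro a
      rw [TT_same]
      by_cases h : a = x <;> simp [h]
    rw [Finset.sum_congr rfl fun a _ => e a, Finset.sum_add_distrib, sum_const']
    simp
    ring
  · intro x y hxy
    have e : ∀ a, TT (FF w x y) n a = ((Ne2 (cq C) w n).2 +
        if a = x then (Ne2 (cq C) w n).1 - (Ne2 (cq C) w n).2 else 0) +
        if a = y then (Ne2 (cq C) w n).1 - (Ne2 (cq C) w n).2 else 0 := by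
      intro a
      rw [TT_diff w x y hxy]
      by_cases h : a = x
      · subst h
        simp [hxy]
      · by_cases h' : a = y
        · subst h'
          simp [h]
        · simp [h, h']
    rw [Finset.sum_congr rfl fun a _ => e a, Finset.sum_add_distrib, Finset.sum_add_distrib,
      sum_const']
    simp
    ring

open Vx

/-- a colouring of the vertices, in parts -/
def parts (n L m : ℕ) (C : Type) : (Vx n L m → C) ≃
    (Bool → C) × (Fin (n + 1) → C) × (Bool → Fin n → Fin L → Row C m) where
  toFun f := (fun σ => f (hub σ), fun i => f (ch i),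
    fun σ i j => (fun k => f (zz σ i j k), f (cc σ i j)))
  invFun p
    | hub σ => p.1 σ
    | ch i => p.2.1 i
    | zz σ i j k => (p.2.2 σ i j).1 k
    | cc σ i j => (p.2.2 σ i j).2
  left_inv f := by
    funext v
    rcases v with (σ | i | ⟨σ, i, j, k⟩ | ⟨σ, i, j⟩) <;> rfl
  right_inv p := rfl

theorem count_colorings (n L m : ℕ) (hL : 0 < L) :
    (Fintype.card {f : Vx n L m → C // ∀ u v, E u v → f u ≠ f v} : ℤ) =
      tot (cq C) (Wt (cq C) m L) n := by
  rw [← total_sum, Fintype.card_subtype, Finset.card_filter]
  push_cast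
  have step1 : ∑ f : Vx n L m → C, (if (∀ u v, E u v → f u ≠ f v) then (1 : ℤ) else 0) =
      ∑ p : (Bool → C) × (Fin (n + 1) → C) × (Bool → Fin n → Fin L → Row C m),
        (∏ i : Fin n, if p.2.1 i.castSucc ≠ p.2.1 i.succ then (1 : ℤ) else 0) *
          ∏ σ, ∏ i : Fin n, if StripOK m (p.1 σ) L (p.2.1 i.castSucc) (p.2.1 i.succ)
            (fun j => (p.2.2 σ i j).1) (fun j => (p.2.2 σ i j).2) then (1 : ℤ) else 0 := by
    refine Fintype.sum_equiv (parts n L m C) _ _ ?_
    intro f
    have e1 : (∏ i : Fin n, if ((parts n L m C) f).2.1 i.castSucc ≠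
        ((parts n L m C) f).2.1 i.succ then (1 : ℤ) else 0) =
        if (∀ i : Fin n, f (ch i.castSucc) ≠ f (ch i.succ)) then 1 else 0 := by
      rw [Finset.prod_ite_zero]
      simp [parts]
    have e2 : (∏ σ, ∏ i : Fin n, if StripOK m (((parts n L m C) f).1 σ) L
            (((parts n L m C) f).2.1 i.castSucc) (((parts n L m C) f).2.1 i.succ)
            (fun j => (((parts n L m C) f).2.2 σ i j).1)
            (fun j => (((parts n L m C) f).2.2 σ i j).2) then (1 : ℤ) else 0) =
        if (∀ σ i, StripOK m (f (hub σ)) L (f (ch i.castSucc)) (f (ch i.succ))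
        (fun j k => f (zz σ i j k)) (fun j => f (cc σ i j))) then 1 else 0 := by
      have e3 : ∀ σ, (∏ i : Fin n, if StripOK m (((parts n L m C) f).1 σ) L
            (((parts n L m C) f).2.1 i.castSucc) (((parts n L m C) f).2.1 i.succ)
            (fun j => (((parts n L m C) f).2.2 σ i j).1)
            (fun j => (((parts n L m C) f).2.2 σ i j).2) then (1 : ℤ) else 0) =
          if (∀ i, StripOK m (f (hub σ)) L (f (ch i.castSucc)) (f (ch i.succ))
        (fun j k => f (zz σ i j k)) (fun j => f (cc σ i j))) then 1 else 0 := by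
        intro σ
        rw [Finset.prod_ite_zero]
        simp [parts]
      rw [Finset.prod_congr rfl fun σ _ => e3 σ, Finset.prod_ite_zero]
      simp
    rw [e1, e2]
    by_cases h1 : (∀ i : Fin n, f (ch i.castSucc) ≠ f (ch i.succ))
    · by_cases h2 : (∀ σ i, StripOK m (f (hub σ)) L (f (ch i.castSucc)) (f (ch i.succ))
        (fun j k => f (zz σ i j k)) (fun j => f (cc σ i j)))
      · rw [if_pos ((coloring_iff hL f).2 ⟨h1, h2⟩), if_pos h1, if_pos h2]
        norm_num
      · rw [if_neg (fun h => h2 ((coloring_iff hL f).1 h).2), if_neg h2, mul_zero]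
    · rw [if_neg (fun h => h1 ((coloring_iff hL f).1 h).1), if_neg h1, zero_mul]
  rw [step1, Fintype.sum_prod_type]
  refine Finset.sum_congr rfl fun h _ => ?_
  rw [Fintype.sum_prod_type, ← chain_sum]
  refine Finset.sum_congr rfl fun c _ => ?_
  dsimp only
  have e4 : ∑ g : Bool → Fin n → Fin L → Row C m, (∏ σ, ∏ i : Fin n,
      if StripOK m (h σ) L (c i.castSucc) (c i.succ)
            (fun j => (g σ i j).1) (fun j => (g σ i j).2) then (1 : ℤ) else 0) =
      ∏ σ, ∏ i : Fin n, NL m (h σ) L (c i.castSucc) (c i.succ) := by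
    rw [sum_pi_prod (fun σ (g : Fin n → Fin L → Row C m) => ∏ i : Fin n,
      if StripOK m (h σ) L (c i.castSucc) (c i.succ)
            (fun j => (g i j).1) (fun j => (g i j).2) then (1 : ℤ) else 0)]
    refine Finset.prod_congr rfl fun σ _ => ?_
    rw [sum_pi_prod (fun (i : Fin n) (g : Fin L → Row C m) =>
      if StripOK m (h σ) L (c i.castSucc) (c i.succ)
            (fun j => (g j).1) (fun j => (g j).2) then (1 : ℤ) else 0)]
    rfl
  have e5 : (∑ y : Bool → Fin n → Fin L → Row C m,
      (∏ i : Fin n, if c i.castSucc ≠ c i.succ then (1 : ℤ) else 0) *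
        ∏ σ, ∏ i : Fin n, if StripOK m (h σ) L (c i.castSucc) (c i.succ)
            (fun j => (y σ i j).1) (fun j => (y σ i j).2) then (1 : ℤ) else 0) =
      (∏ i : Fin n, if c i.castSucc ≠ c i.succ then (1 : ℤ) else 0) *
        ∏ σ, ∏ i : Fin n, NL m (h σ) L (c i.castSucc) (c i.succ) := by
    rw [← e4, Finset.mul_sum]
  refine Eq.trans ?_ (e5.trans ?_)
  · rfl
  rw [Fintype.prod_bool, ← Finset.prod_mul_distrib, ← Finset.prod_mul_distrib]
  refine Finset.prod_congr rfl fun i _ => ?_
  by_cases hc : c i.castSucc = c i.succ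
  · simp [hc, FF]
  · rw [NL_eq m _ L _ _ hc, NL_eq m _ L _ _ hc, FF, if_pos hc, if_pos hc]
    ring

end Pool.Agent.H57.Chrom
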