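import Pool.Agent.H57.Chrom.Graph

set_option autoImplicit false

/-!
# The graphs are 3-connected
-/

namespace Pool.Agent.H57.Chrom

open Vx

variable {n L m : ℕ}

/-- connected by a path avoiding `X` -/
def Conn (X : Finset (Vx n L m)) (u v : Vx n L m) : Prop :=
  Relation.ReflTransGen (fun a b => (Gr n L m).Adj a b ∧ a ∉ X ∧ b ∉ X) u v

namespace Conn

variable {X : Finset (Vx n L m)}

theorem refl (u : Vx n L m) : Conn X u u := Relation.ReflTransGen.refl

theorem trans {u v w : Vx n L m} (h : Conn X u v) (h' : Conn X v w) : Conn X u w :=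
  Relation.ReflTransGen.trans h h'

theorem symm {u v : Vx n L m} (h : Conn X u v) : Conn X v u := by
  induction h with
  | refl => exact Relation.ReflTransGen.refl
  | tail _ hbc ih => exact Relation.ReflTransGen.head ⟨hbc.1.symm, hbc.2.2, hbc.2.1⟩ ih

theorem edge {u v : Vx n L m} (h : E u v) (hu : u ∉ X) (hv : v ∉ X) : Conn X u v :=
  Relation.ReflTransGen.single ⟨Or.inl h, hu, hv⟩

theorem edge' {u v : Vx n L m} (h : E v u) (hu : u ∉ X) (hv : v ∉ X) : Conn X u v :=
  Relation.ReflTransGen.single ⟨Or.inr h, hu, hv⟩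

theorem reachable {u v : Vx n L m} (h : Conn X u v) (hu : u ∉ X) (hv : v ∉ X) :
    ((Gr n L m).induce {v | v ∉ X}).Reachable ⟨u, hu⟩ ⟨v, hv⟩ := by
  induction h with
  | refl => exact SimpleGraph.Reachable.refl _
  | tail _ hbc ih =>
    refine (ih hbc.2.1).trans (SimpleGraph.Adj.reachable ?_)
    simpa using hbc.1

end Conn

section strands

variable {X : Finset (Vx n L m)} {σ : Bool} {i : Fin n}

theorem row_up (j : Fin L) : ∀ d k : ℕ, (hk : k < m + 1) → k + d = m →
    (∀ k' : Fin (m + 1), k ≤ k' → zz σ i j k' ∉ X) →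
    Conn X (zz σ i j ⟨k, hk⟩) (zz σ i j ⟨m, by omega⟩) := by
  intro d
  induction d with
  | zero =>
    intro k hk hkd _
    have : k = m := by omega
    subst this
    exact Conn.refl _
  | succ d ih =>
    intro k hk hkd h
    have hk1 : k + 1 < m + 1 := by omega
    refine Conn.trans (v := zz σ i j ⟨k + 1, hk1⟩) ?_ (ih (k + 1) hk1 (by omega) ?_)
    · refine Conn.edge ?_ (h _ le_rfl) (h _ (by simp))
      exact ⟨rfl, rfl, Or.inl ⟨rfl, rfl⟩⟩
    · intro k' hk'
      exact h k' (by omega)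

theorem row_down (j : Fin L) : ∀ k : ℕ, (hk : k < m + 1) →
    (∀ k' : Fin (m + 1), (k' : ℕ) ≤ k → zz σ i j k' ∉ X) →
    Conn X (zz σ i j ⟨k, hk⟩) (zz σ i j ⟨0, by omega⟩) := by
  intro k
  induction k with
  | zero =>
    intro hk _
    exact Conn.refl _
  | succ k ih =>
    intro hk h
    refine Conn.trans (v := zz σ i j ⟨k, by omega⟩) ?_ (ih (by omega) ?_)
    · refine Conn.edge' ?_ (h _ le_rfl) (h _ (by simp))
      exact ⟨rfl, rfl, Or.inl ⟨rfl, rfl⟩⟩
    · intro k' hk'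
      exact h k' (by omega)

theorem z_up (hh : hub σ ∉ X) : ∀ d j k : ℕ, (hj : j < L) → (hk : k < m + 1) → j + 1 + d = L →
    (∀ (j' : Fin L) (k' : Fin (m + 1)), (j < j' ∨ (j = j' ∧ k ≤ k')) → zz σ i j' k' ∉ X) →
    Conn X (zz σ i ⟨j, hj⟩ ⟨k, hk⟩) (hub σ) := by
  intro d
  induction d with
  | zero =>
    intro j k hj hk hjd h
    refine Conn.trans (row_up ⟨j, hj⟩ (m - k) k hk (by omega) ?_) (Conn.edge ?_ ?_ hh)
    · intro k' hk'
      exact h _ _ (Or.inr ⟨rfl, hk'⟩)
    · exact ⟨rfl, by simpa using hjd, rfl⟩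
    · refine h _ _ (Or.inr ⟨rfl, ?_⟩)
      show k ≤ m
      omega
  | succ d ih =>
    intro j k hj hk hjd h
    have hj1 : j + 1 < L := by omega
    refine Conn.trans (row_up ⟨j, hj⟩ (m - k) k hk (by omega) ?_)
      (Conn.trans (v := zz σ i ⟨j + 1, hj1⟩ ⟨0, by omega⟩) (Conn.edge ?_ ?_ ?_)
        (ih (j + 1) 0 hj1 (by omega) (by omega) ?_))
    · intro k' hk'
      exact h _ _ (Or.inr ⟨rfl, hk'⟩)
    · exact ⟨rfl, rfl, Or.inr ⟨rfl, rfl, rfl⟩⟩
    · refine h _ _ (Or.inr ⟨rfl, ?_⟩)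
      show k ≤ m
      omega
    · refine h _ _ (Or.inl ?_)
      show j < j + 1
      omega
    · intro j' k' h'
      exact h j' k' (Or.inl (by omega))

theorem z_down (hh : ch i.castSucc ∉ X) : ∀ j k : ℕ, (hj : j < L) → (hk : k < m + 1) →
    (∀ (j' : Fin L) (k' : Fin (m + 1)), ((j' : ℕ) < j ∨ ((j' : ℕ) = j ∧ (k' : ℕ) ≤ k)) →
      zz σ i j' k' ∉ X) →
    Conn X (zz σ i ⟨j, hj⟩ ⟨k, hk⟩) (ch i.castSucc) := by
  intro j
  induction j with
  | zero =>
    intro k hj hk h
    refine Conn.trans (row_down ⟨0, hj⟩ k hk ?_) (Conn.edge' ?_ ?_ hh)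
    · intro k' hk'
      exact h _ _ (Or.inr ⟨rfl, hk'⟩)
    · exact ⟨rfl, Or.inr ⟨rfl, rfl⟩⟩
    · refine h _ _ (Or.inr ⟨rfl, ?_⟩)
      exact Nat.zero_le _
  | succ j ih =>
    intro k hj hk h
    have hj1 : j < L := by omega
    refine Conn.trans (row_down ⟨j + 1, hj⟩ k hk ?_)
      (Conn.trans (v := zz σ i ⟨j, hj1⟩ ⟨m, by omega⟩) (Conn.edge' ?_ ?_ ?_)
        (ih m hj1 (by omega) ?_))
    · intro k' hk'
      exact h _ _ (Or.inr ⟨rfl, hk'⟩)
    · exact ⟨rfl, rfl, Or.inr ⟨rfl, rfl, rfl⟩⟩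
    · refine h _ _ (Or.inr ⟨rfl, ?_⟩)
      exact Nat.zero_le _
    · refine h _ _ (Or.inl ?_)
      show j < j + 1
      omega
    · intro j' k' h'
      exact h j' k' (Or.inl (by omega))

theorem c_up (hh : hub σ ∉ X) : ∀ d j : ℕ, (hj : j < L) → j + 1 + d = L →
    (∀ j' : Fin L, j ≤ j' → cc σ i j' ∉ X) → Conn X (cc σ i ⟨j, hj⟩) (hub σ) := by
  intro d
  induction d with
  | zero =>
    intro j hj hjd h
    exact Conn.edge ⟨rfl, by simpa using hjd⟩ (h _ le_rfl) hh
  | succ d ih =>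
    intro j hj hjd h
    have hj1 : j + 1 < L := by omega
    refine Conn.trans (v := cc σ i ⟨j + 1, hj1⟩)
      (Conn.edge ⟨rfl, rfl, rfl⟩ (h _ le_rfl) (h _ (by simp))) (ih (j + 1) hj1 (by omega) ?_)
    intro j' h'
    exact h j' (by omega)

theorem c_down (hh : ch i.succ ∉ X) : ∀ j : ℕ, (hj : j < L) →
    (∀ j' : Fin L, (j' : ℕ) ≤ j → cc σ i j' ∉ X) → Conn X (cc σ i ⟨j, hj⟩) (ch i.succ) := by
  intro j
  induction j with
  | zero =>
    intro hj h
    exact Conn.edge' ⟨rfl, by simp⟩ (h _ le_rfl) hh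
  | succ j ih =>
    intro hj h
    have hj1 : j < L := by omega
    refine Conn.trans (v := cc σ i ⟨j, hj1⟩)
      (Conn.edge' ⟨rfl, rfl, rfl⟩ (h _ le_rfl) (h _ (by simp))) (ih hj1 ?_)
    intro j' h'
    exact h j' (by omega)

end strands

/-- the vertices of the chain and the hubs -/
def IsCore : Vx n L m → Prop
  | hub _ => True
  | ch _ => True
  | _ => False

/-- every vertex outside `X` is connected to a hub or to a vertex of the chain -/
theorem escape {X : Finset (Vx n L m)} (hX : X.card ≤ 2) (v : Vx n L m) (hv : v ∉ X) :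
    ∃ w, IsCore w ∧ w ∉ X ∧ Conn X v w := by
  have two : ∀ a b c : Vx n L m, a ∈ X → b ∈ X → a ≠ b → c ≠ a → c ≠ b → c ∉ X := by
    intro a b c ha hb hab hca hcb hc
    have : ({a, b, c} : Finset (Vx n L m)) ⊆ X := by
      intro x hx
      simp only [Finset.mem_insert, Finset.mem_singleton] at hx
      rcases hx with rfl | rfl | rfl <;> assumption
    have h3 := Finset.card_le_card this
    rw [Finset.card_insert_of_notMem, Finset.card_insert_of_notMem, Finset.card_singleton] at h3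
    · omega
    · simpa using hcb.symm
    · simp only [Finset.mem_insert, Finset.mem_singleton, not_or]
      exact ⟨hab, hca.symm⟩
  rcases v with (σ | i | ⟨σ, i, ⟨j, hj⟩, ⟨k, hk⟩⟩ | ⟨σ, i, ⟨j, hj⟩⟩)
  · exact ⟨hub σ, trivial, hv, Conn.refl _⟩
  · exact ⟨ch i, trivial, hv, Conn.refl _⟩
  · by_cases h1 : hub σ ∉ X ∧ ∀ (j' : Fin L) (k' : Fin (m + 1)),
        (j < j' ∨ (j = j' ∧ k ≤ k')) → zz σ i j' k' ∉ X
    · exact ⟨hub σ, trivial, h1.1, z_up h1.1 (L - 1 - j) j k hj hk (by omega) h1.2⟩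
    by_cases h2 : ch i.castSucc ∉ X ∧ ∀ (j' : Fin L) (k' : Fin (m + 1)),
        ((j' : ℕ) < j ∨ ((j' : ℕ) = j ∧ (k' : ℕ) ≤ k)) → zz σ i j' k' ∉ X
    · exact ⟨ch i.castSucc, trivial, h2.1, z_down h2.1 j k hj hk h2.2⟩
    -- the two blocking vertices
    have b1 : ∃ b ∈ X, b = hub σ ∨ ∃ j' k', (j < (j' : Fin L) ∨ (j = j' ∧ k < (k' : Fin (m + 1)))) ∧
        b = zz σ i j' k' := by
      by_contra hcon
      push Not at hcon
      apply h1
      refine ⟨fun h => (hcon _ h).1 rfl, fun j' k' h' hm => ?_⟩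
      by_cases he : j = j' ∧ k = k'
      · apply hv
        have : (zz σ i ⟨j, hj⟩ ⟨k, hk⟩ : Vx n L m) = zz σ i j' k' := by
          congr 1
          · exact Fin.ext he.1
          · exact Fin.ext he.2
        rw [this]
        exact hm
      · exact (hcon _ hm).2 j' k' (by omega) rfl
    have b2 : ∃ b ∈ X, b = ch i.castSucc ∨ ∃ j' k', ((j' : Fin L) < j ∨
        ((j' : ℕ) = j ∧ ((k' : Fin (m + 1)) : ℕ) < k)) ∧ b = zz σ i j' k' := by
      by_contra hcon
      push Not at hcon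
      apply h2
      refine ⟨fun h => (hcon _ h).1 rfl, fun j' k' h' hm => ?_⟩
      by_cases he : j = j' ∧ k = k'
      · apply hv
        have : (zz σ i ⟨j, hj⟩ ⟨k, hk⟩ : Vx n L m) = zz σ i j' k' := by
          congr 1
          · exact Fin.ext he.1
          · exact Fin.ext he.2
        rw [this]
        exact hm
      · exact (hcon _ hm).2 j' k' (by omega) rfl
    obtain ⟨b1, hb1, hb1'⟩ := b1
    obtain ⟨b2, hb2, hb2'⟩ := b2
    have hne : b1 ≠ b2 := by
      rintro rfl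
      rcases hb1' with rfl | ⟨j1, k1, h3, rfl⟩
      · rcases hb2' with h4 | ⟨j2, k2, h4, h5⟩
        · cases h4
        · cases h5
      · rcases hb2' with h4 | ⟨j2, k2, h4, h5⟩
        · cases h4
        · cases h5
          omega
    have hc : ∀ j', cc σ i j' ∉ X := by
      intro j'
      refine two b1 b2 _ hb1 hb2 hne ?_ ?_
      · rcases hb1' with rfl | ⟨_, _, _, rfl⟩ <;> simp
      · rcases hb2' with rfl | ⟨_, _, _, rfl⟩ <;> simp
    have hs : ch i.succ ∉ X := by
      refine two b1 b2 _ hb1 hb2 hne ?_ ?_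
      · rcases hb1' with rfl | ⟨_, _, _, rfl⟩ <;> simp
      · rcases hb2' with rfl | ⟨_, _, _, rfl⟩
        · intro h
          injection h with h
          have := congrArg Fin.val h
          simp at this
        · simp
    refine ⟨ch i.succ, trivial, hs, ?_⟩
    rcases j with _ | j
    · exact Conn.edge' ⟨rfl, Or.inl (by simp)⟩ hv hs
    · exact Conn.trans (v := cc σ i ⟨j, by omega⟩) (Conn.edge' ⟨rfl, rfl, rfl⟩ hv (hc _))
        (c_down hs j (by omega) fun j' _ => hc j')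
  · by_cases h1 : hub σ ∉ X ∧ ∀ j' : Fin L, j ≤ j' → cc σ i j' ∉ X
    · exact ⟨hub σ, trivial, h1.1, c_up h1.1 (L - 1 - j) j hj (by omega) h1.2⟩
    by_cases h2 : ch i.succ ∉ X ∧ ∀ j' : Fin L, (j' : ℕ) ≤ j → cc σ i j' ∉ X
    · exact ⟨ch i.succ, trivial, h2.1, c_down h2.1 j hj h2.2⟩
    have b1 : ∃ b ∈ X, b = hub σ ∨ ∃ j', j < (j' : Fin L) ∧ b = cc σ i j' := by
      by_contra hcon
      push Not at hcon
      apply h1
      refine ⟨fun h => (hcon _ h).1 rfl, fun j' h' hm => ?_⟩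
      by_cases he : j = j'
      · apply hv
        have : (cc σ i ⟨j, hj⟩ : Vx n L m) = cc σ i j' := by
          congr 1
          exact Fin.ext he
        rw [this]
        exact hm
      · exact (hcon _ hm).2 j' (by omega) rfl
    have b2 : ∃ b ∈ X, b = ch i.succ ∨ ∃ j', ((j' : Fin L) : ℕ) < j ∧ b = cc σ i j' := by
      by_contra hcon
      push Not at hcon
      apply h2
      refine ⟨fun h => (hcon _ h).1 rfl, fun j' h' hm => ?_⟩
      by_cases he : j = j'
      · apply hv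
        have : (cc σ i ⟨j, hj⟩ : Vx n L m) = cc σ i j' := by
          congr 1
          exact Fin.ext he
        rw [this]
        exact hm
      · exact (hcon _ hm).2 j' (by omega) rfl
    obtain ⟨b1, hb1, hb1'⟩ := b1
    obtain ⟨b2, hb2, hb2'⟩ := b2
    have hne : b1 ≠ b2 := by
      rintro rfl
      rcases hb1' with rfl | ⟨j1, h3, rfl⟩
      · rcases hb2' with h4 | ⟨j2, h4, h5⟩
        · cases h4
        · cases h5
      · rcases hb2' with h4 | ⟨j2, h4, h5⟩
        · cases h4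
        · cases h5
          omega
    have hc : ∀ j' k', zz σ i j' k' ∉ X := by
      intro j' k'
      refine two b1 b2 _ hb1 hb2 hne ?_ ?_
      · rcases hb1' with rfl | ⟨_, _, rfl⟩ <;> simp
      · rcases hb2' with rfl | ⟨_, _, rfl⟩ <;> simp
    have hs : ch i.castSucc ∉ X := by
      refine two b1 b2 _ hb1 hb2 hne ?_ ?_
      · rcases hb1' with rfl | ⟨_, _, rfl⟩ <;> simp
      · rcases hb2' with rfl | ⟨_, _, rfl⟩
        · intro h
          injection h with h
          have := congrArg Fin.val h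
          simp at this
        · simp
    refine ⟨ch i.castSucc, trivial, hs, ?_⟩
    exact Conn.trans (v := zz σ i ⟨j, hj⟩ ⟨m, by omega⟩)
      (Conn.edge' ⟨rfl, rfl, rfl, rfl⟩ hv (hc _ _))
      (z_down hs j m hj (by omega) fun j' k' _ => hc j' k')

/-- the inner vertices of a strand are outside `X` -/
def Free (X : Finset (Vx n L m)) (σ : Bool) (i : Fin n) : Bool → Prop
  | false => ∀ j k, zz σ i j k ∉ X
  | true => ∀ j, cc σ i j ∉ X

/-- the end of a strand on the chain -/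
def base (i : Fin n) : Bool → Fin (n + 1)
  | false => i.castSucc
  | true => i.succ

theorem strand {X : Finset (Vx n L m)} (hL : 0 < L) {σ : Bool} {i : Fin n} {ρ : Bool}
    (hf : Free X σ i ρ) (hh : hub σ ∉ X) (hb : ch (base i ρ) ∉ X) :
    Conn X (ch (base i ρ)) (hub σ) := by
  cases ρ
  · exact Conn.trans (v := zz σ i ⟨0, hL⟩ ⟨0, by omega⟩)
      (Conn.edge ⟨rfl, Or.inr ⟨rfl, rfl⟩⟩ hb (hf _ _))
      (z_up hh (L - 1) 0 0 hL (by omega) (by omega) fun _ _ _ => hf _ _)
  · exact Conn.trans (v := cc σ i ⟨0, hL⟩) (Conn.edge ⟨rfl, by simp [base]⟩ hb (hf _))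
      (c_up hh (L - 1) 0 hL (by omega) fun _ _ => hf _)

theorem not_free {X : Finset (Vx n L m)} {σ : Bool} {i : Fin n} {ρ : Bool}
    (hf : ¬ Free X σ i ρ) : ∃ x ∈ X, (ρ = false ∧ ∃ j k, x = zz σ i j k) ∨
      (ρ = true ∧ ∃ j, x = cc σ i j) := by
  cases ρ
  · simp only [Free, not_forall, not_not] at hf
    obtain ⟨j, k, h⟩ := hf
    exact ⟨_, h, Or.inl ⟨rfl, j, k, rfl⟩⟩
  · simp only [Free, not_forall, not_not] at hf
    obtain ⟨j, h⟩ := hf
    exact ⟨_, h, Or.inr ⟨rfl, j, rfl⟩⟩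

/-- the chain, if no vertex of it is deleted -/
theorem chain {X : Finset (Vx n L m)} (hX : ∀ a, ch a ∉ X) (a : Fin (n + 1)) :
    Conn X (ch a) (ch 0) := by
  obtain ⟨a, ha⟩ := a
  induction a with
  | zero => exact Conn.refl _
  | succ a ih =>
    exact Conn.trans (v := ch ⟨a, by omega⟩) (Conn.edge' rfl (hX _) (hX _)) (ih (by omega))

theorem three_mem {X : Finset (Vx n L m)} (hX : X.card ≤ 2) {a b c : Vx n L m} (ha : a ∈ X)
    (hb : b ∈ X) (hc : c ∈ X) (hab : a ≠ b) (hac : a ≠ c) (hbc : b ≠ c) : False := by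
  have : ({a, b, c} : Finset (Vx n L m)) ⊆ X := by
    intro x hx
    simp only [Finset.mem_insert, Finset.mem_singleton] at hx
    rcases hx with rfl | rfl | rfl <;> assumption
  have h3 := Finset.card_le_card this
  rw [Finset.card_insert_of_notMem, Finset.card_insert_of_notMem, Finset.card_singleton] at h3
  · omega
  · simpa using hbc
  · simp only [Finset.mem_insert, Finset.mem_singleton, not_or]
    exact ⟨hab, hac⟩

/-- a hub outside `X` is connected to a vertex of the chain -/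
theorem hub_link {X : Finset (Vx n L m)} (hX : X.card ≤ 2) (hn : 2 ≤ n) (hL : 0 < L) {τ : Bool}
    (hτ : hub τ ∉ X) : ∃ b, ch b ∉ X ∧ Conn X (hub τ) (ch b) := by
  by_contra hcon
  push Not at hcon
  have key : ∀ i ρ, ∃ x ∈ X, x = ch (base i ρ) ∨ (ρ = false ∧ ∃ j k, x = zz τ i j k) ∨
      (ρ = true ∧ ∃ j, x = cc τ i j) := by
    intro i ρ
    by_cases hb : ch (base i ρ) ∈ X
    · exact ⟨_, hb, Or.inl rfl⟩
    · by_cases hf : Free X τ i ρ
      · exact absurd (strand hL hf hτ hb).symm (hcon _ hb)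
      · obtain ⟨x, hx, h⟩ := not_free hf
        exact ⟨x, hx, Or.inr h⟩
  obtain ⟨x1, h1, h1'⟩ := key ⟨0, by omega⟩ false
  obtain ⟨x2, h2, h2'⟩ := key ⟨0, by omega⟩ true
  obtain ⟨x3, h3, h3'⟩ := key ⟨1, by omega⟩ true
  refine three_mem hX h1 h2 h3 ?_ ?_ ?_
  · rintro rfl
    rcases h1' with h4 | ⟨-, j, k, h4⟩ | ⟨h4, -⟩
    · rcases h2' with h5 | ⟨h5, -⟩ | ⟨-, j', h5⟩
      · rw [h4] at h5
        injection h5 with h5
        simp [base] at h5
      · cases h5
      · rw [h4] at h5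
        cases h5
    · rcases h2' with h5 | ⟨h5, -⟩ | ⟨-, j', h5⟩
      · rw [h4] at h5
        cases h5
      · cases h5
      · rw [h4] at h5
        cases h5
    · cases h4
  · rintro rfl
    rcases h1' with h4 | ⟨-, j, k, h4⟩ | ⟨h4, -⟩
    · rcases h3' with h5 | ⟨h5, -⟩ | ⟨-, j', h5⟩
      · rw [h4] at h5
        injection h5 with h5
        simp [base] at h5
      · cases h5
      · rw [h4] at h5
        cases h5
    · rcases h3' with h5 | ⟨h5, -⟩ | ⟨-, j', h5⟩
      · rw [h4] at h5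
        cases h5
      · cases h5
      · rw [h4] at h5
        cases h5
    · cases h4
  · rintro rfl
    rcases h2' with h4 | ⟨h4, -⟩ | ⟨-, j, h4⟩
    · rcases h3' with h5 | ⟨h5, -⟩ | ⟨-, j', h5⟩
      · rw [h4] at h5
        injection h5 with h5
        simp [base] at h5
      · cases h5
      · rw [h4] at h5
        cases h5
    · cases h4
    · rcases h3' with h5 | ⟨h5, -⟩ | ⟨-, j', h5⟩
      · rw [h4] at h5
        cases h5
      · cases h5
      · rw [h4] at h5
        injection h5 with h5 h6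
        simp at h6

/-- the hubs and the vertices of the chain outside `X` are connected -/
theorem core_conn {X : Finset (Vx n L m)} (hX : X.card ≤ 2) (hn : 2 ≤ n) (hL : 0 < L) :
    ∃ r, r ∉ X ∧ ∀ w, IsCore w → w ∉ X → Conn X w r := by
  by_cases hc : ∀ a, ch a ∉ X
  · refine ⟨ch 0, hc 0, ?_⟩
    rintro (τ | a | ⟨σ, i, j, k⟩ | ⟨σ, i, j⟩) hw hwX
    · obtain ⟨b, -, hb⟩ := hub_link hX hn hL hwX
      exact hb.trans (chain hc b)
    · exact chain hc a
    · exact hw.elim
    · exact hw.elim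
  · push Not at hc
    obtain ⟨a, ha⟩ := hc
    have hside : ∃ σ, hub σ ∉ X ∧ ∀ i ρ, Free X σ i ρ := by
      by_contra hcon
      have key : ∀ σ, ∃ x ∈ X, x = hub σ ∨ (∃ i j k, x = zz σ i j k) ∨ ∃ i j, x = cc σ i j := by
        intro σ
        by_cases hσ : hub σ ∈ X
        · exact ⟨_, hσ, Or.inl rfl⟩
        · have : ¬ ∀ i ρ, Free X σ i ρ := fun h => hcon ⟨σ, hσ, h⟩
          push Not at this
          obtain ⟨i, ρ, h⟩ := this
          obtain ⟨x, hx, ⟨-, j, k, h⟩ | ⟨-, j, h⟩⟩ := not_free h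
          · exact ⟨x, hx, Or.inr (Or.inl ⟨i, j, k, h⟩)⟩
          · exact ⟨x, hx, Or.inr (Or.inr ⟨i, j, h⟩)⟩
      obtain ⟨x1, h1, h1'⟩ := key false
      obtain ⟨x2, h2, h2'⟩ := key true
      refine three_mem hX ha h1 h2 ?_ ?_ ?_
      · rcases h1' with rfl | ⟨_, _, _, rfl⟩ | ⟨_, _, rfl⟩ <;> simp
      · rcases h2' with rfl | ⟨_, _, _, rfl⟩ | ⟨_, _, rfl⟩ <;> simp
      · rcases h1' with rfl | ⟨_, _, _, rfl⟩ | ⟨_, _, rfl⟩ <;>
          rcases h2' with rfl | ⟨_, _, _, rfl⟩ | ⟨_, _, rfl⟩ <;> simp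
    obtain ⟨σ, hσ, hf⟩ := hside
    have hch : ∀ b, ch b ∉ X → Conn X (ch b) (hub σ) := by
      intro b hb
      by_cases hbn : (b : ℕ) < n
      · have e : base ⟨b, hbn⟩ false = b := Fin.ext rfl
        have := strand hL (hf ⟨b, hbn⟩ false) hσ (by rw [e]; exact hb)
        rwa [e] at this
      · have e : base ⟨n - 1, by omega⟩ true = b := by
          apply Fin.ext
          simp only [base, Fin.val_succ]
          omega
        have := strand hL (hf ⟨n - 1, by omega⟩ true) hσ (by rw [e]; exact hb)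
        rwa [e] at this
    refine ⟨hub σ, hσ, ?_⟩
    rintro (τ | b | ⟨σ, i, j, k⟩ | ⟨σ, i, j⟩) hw hwX
    · obtain ⟨b, hb, hb'⟩ := hub_link hX hn hL hwX
      exact hb'.trans (hch b hb)
    · exact hch b hwX
    · exact hw.elim
    · exact hw.elim

theorem gr_threeConnected (hn : 2 ≤ n) (hL : 0 < L) : IsThreeConnected (Gr n L m) := by
  refine ⟨?_, ?_⟩
  · rw [Fintype.card_congr (Vx.equiv n L m)]
    simp only [Fintype.card_sum, Fintype.card_bool, Fintype.card_fin]
    omega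
  · intro X hX
    obtain ⟨r, hr, h⟩ := core_conn hX hn hL
    rw [SimpleGraph.connected_iff]
    refine ⟨?_, ⟨⟨r, hr⟩⟩⟩
    have key : ∀ v (hv : v ∉ X), ((Gr n L m).induce {v | v ∉ X}).Reachable ⟨v, hv⟩ ⟨r, hr⟩ := by
      intro v hv
      obtain ⟨w, hw, hwX, hvw⟩ := escape hX v hv
      exact (hvw.trans (h w hw hwX)).reachable hv hr
    rintro ⟨u, hu⟩ ⟨v, hv⟩
    exact (key u hu).trans (key v hv).symm

end Pool.Agent.H57.Chrom
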