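import Mathlib

set_option autoImplicit false

/-!
# The weights of rows, strips and chains
-/

namespace Pool.Agent.H57.Chrom

section ring

variable {R : Type} [CommRing R]

/-- walks in a complete graph on `q - 1` vertices -/
def gq (q : R) : ℕ → R
  | 0 => 0
  | k + 1 => (-1) ^ k + (q - 2) * gq q k

/-- one row of a strip -/
def rowStep (q s g : R) (w : R × R × R) : R × R × R :=
  (s * (w.2.2 + (q - 3) * w.1) + g * (q - 2) * (w.2.1 + w.2.2 + (q - 3) * w.1),
    s * ((q - 2) * w.2.1) + g * (q - 2) * (w.2.1 + w.2.2 + (q - 3) * w.1),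
    (s + (q - 1) * g) * ((q - 2) * w.1))

/-- the weights of a strip of `L` rows: the hub has a colour different from both colours at the
bottom, the left colour, the right colour -/
def Wt (q : R) (m : ℕ) : ℕ → R × R × R
  | 0 => (1, 0, 0)
  | L + 1 => rowStep q ((-1) ^ (m + 1)) (gq q (m + 1)) (Wt q m L)

/-- the chain, if the hubs have one colour -/
def Eq2 (q : R) (w : R × R × R) : ℕ → R × R
  | 0 => (1, 1)
  | n + 1 => ((q - 1) * (w.2.1 ^ 2 * (Eq2 q w n).2),
      w.2.2 ^ 2 * (Eq2 q w n).1 + (q - 2) * (w.1 ^ 2 * (Eq2 q w n).2))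

/-- the chain, if the hubs have two colours -/
def Ne2 (q : R) (w : R × R × R) : ℕ → R × R
  | 0 => (1, 1)
  | n + 1 => (w.2.1 * w.2.2 * (Ne2 q w n).1 + (q - 2) * (w.2.1 * w.1 * (Ne2 q w n).2),
      2 * (w.2.2 * w.1 * (Ne2 q w n).1) + (q - 3) * (w.1 ^ 2 * (Ne2 q w n).2))

/-- the number of colourings in terms of the weights of a strip -/
def tot (q : R) (w : R × R × R) (n : ℕ) : R :=
  q * ((Eq2 q w n).1 + (q - 1) * (Eq2 q w n).2) +
    q * (q - 1) * (2 * (Ne2 q w n).1 + (q - 2) * (Ne2 q w n).2)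

end ring

section map

variable {R S : Type} [CommRing R] [CommRing S] (φ : R →+* S)

theorem hom2 : φ 2 = 2 := map_ofNat φ 2

theorem hom3 : φ 3 = 3 := map_ofNat φ 3

theorem map_gq (q : R) (k : ℕ) : φ (gq q k) = gq (φ q) k := by
  induction k with
  | zero => simp [gq]
  | succ k ih => simp [gq, ih, hom2]

/-- apply a homomorphism to three elements -/
def m3 (w : R × R × R) : S × S × S := (φ w.1, φ w.2.1, φ w.2.2)

theorem map_Wt (q : R) (m L : ℕ) : m3 φ (Wt q m L) = Wt (φ q) m L := by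
  induction L with
  | zero => simp [Wt, m3]
  | succ L ih =>
    rw [Wt, Wt, ← ih]
    simp [rowStep, m3, map_gq, hom2, hom3]

theorem map_Eq2 (q : R) (w : R × R × R) (n : ℕ) :
    (φ (Eq2 q w n).1, φ (Eq2 q w n).2) = Eq2 (φ q) (m3 φ w) n := by
  induction n with
  | zero => simp [Eq2]
  | succ n ih =>
    rw [Eq2, Eq2, ← ih]
    simp [m3, hom2]

theorem map_Ne2 (q : R) (w : R × R × R) (n : ℕ) :
    (φ (Ne2 q w n).1, φ (Ne2 q w n).2) = Ne2 (φ q) (m3 φ w) n := by
  induction n with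
  | zero => simp [Ne2]
  | succ n ih =>
    rw [Ne2, Ne2, ← ih]
    simp [m3, hom2, hom3]

theorem map_tot (q : R) (w : R × R × R) (n : ℕ) :
    φ (tot q w n) = tot (φ q) (m3 φ w) n := by
  rw [tot, tot, ← map_Eq2, ← map_Ne2]
  simp [hom2]

end map

end Pool.Agent.H57.Chrom
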