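import Pool.Agent.H57.Chrom.Strip
import Pool.Agent.H57.Chrom.Weights

set_option autoImplicit false

/-!
# Counting the colourings
-/

namespace Pool.Agent.H57.Chrom

open Finset

open scoped Classical

theorem sum_cons {A : Type} [Fintype A] {L : ℕ} (F : (Fin (L + 1) → A) → ℤ) :
    ∑ p, F p = ∑ a, ∑ p : Fin L → A, F (Fin.cons a p) := by
  rw [← Fintype.sum_prod_type']
  exact (Fintype.sum_equiv (Fin.consEquiv fun _ => A) _ _ (fun x => rfl)).symm

theorem sum_pi_prod {ι A : Type} [Fintype ι] [DecidableEq ι] [Fintype A] (G : ι → A → ℤ) :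
    ∑ g : ι → A, ∏ i, G i (g i) = ∏ i, ∑ a, G i a := by
  rw [Finset.prod_univ_sum]
  simp [Fintype.piFinset_univ]

variable {C : Type} [Fintype C]

/-- the number of colours -/
noncomputable def cq (C : Type) [Fintype C] : ℤ := (Fintype.card C : ℤ)

theorem sum_const' (x : ℤ) : ∑ _a : C, x = cq C * x := by
  simp [cq]

theorem sum_excl1 (r : C) (F : C → ℤ) :
    ∑ a, (if a ≠ r then F a else 0) = ∑ a, F a - F r := by
  have : ∀ a, (if a ≠ r then F a else 0) = F a - (if a = r then F a else 0) := by
    intro a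
    by_cases h : a = r <;> simp [h]
  rw [Finset.sum_congr rfl fun a _ => this a, Finset.sum_sub_distrib]
  simp

theorem sum_excl1' (r : C) (F : C → ℤ) :
    ∑ a, (if r ≠ a then F a else 0) = ∑ a, F a - F r := by
  rw [← sum_excl1]
  refine Finset.sum_congr rfl fun a _ => ?_
  simp only [ne_comm]

theorem sum_excl2 (l r : C) (hlr : l ≠ r) (F : C → ℤ) :
    ∑ a, (if l ≠ a ∧ a ≠ r then F a else 0) = ∑ a, F a - F l - F r := by
  have : ∀ a, (if l ≠ a ∧ a ≠ r then F a else 0) =
      F a - (if a = l then F a else 0) - (if a = r then F a else 0) := by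
    intro a
    by_cases h : a = r
    · subst h
      simp [hlr, hlr.symm]
    · by_cases h' : a = l
      · subst h'
        simp [h]
      · simp [h, h', Ne.symm h']
  rw [Finset.sum_congr rfl fun a _ => this a, Finset.sum_sub_distrib, Finset.sum_sub_distrib]
  simp

/-- sums over a row without its last vertex -/
noncomputable def US (m : ℕ) (l r : C) (H : C → ℤ) : ℤ :=
  ∑ z : Fin (m + 1) → C, if (∀ k, z k ≠ r) ∧ l ≠ z 0 ∧
    (∀ k k' : Fin (m + 1), (k' : ℕ) = k + 1 → z k ≠ z k') then H (z (Fin.last m)) else 0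

theorem US_zero (l r : C) (H : C → ℤ) :
    US 0 l r H = ∑ a, if l ≠ a ∧ a ≠ r then H a else 0 := by
  rw [US]
  refine Fintype.sum_equiv (Equiv.funUnique (Fin 1) C) _ _ ?_
  intro z
  have e : (Equiv.funUnique (Fin 1) C) z = z 0 := rfl
  rw [e]
  have h1 : (∀ k k' : Fin (0 + 1), (k' : ℕ) = k + 1 → z k ≠ z k') := by
    intro k k' h
    omega
  have h2 : (∀ k, z k ≠ r) ↔ z 0 ≠ r := by
    constructor
    · intro h
      exact h 0
    · intro h k
      have : k = 0 := Subsingleton.elim _ _
      rw [this]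
      exact h
  have h3 : z (Fin.last 0) = z 0 := rfl
  rw [h3]
  by_cases h4 : l ≠ z 0 ∧ z 0 ≠ r
  · rw [if_pos h4, if_pos ⟨h2.2 h4.2, h4.1, h1⟩]
  · rw [if_neg h4, if_neg]
    rintro ⟨h5, h6, -⟩
    exact h4 ⟨h6, h2.1 h5⟩

theorem US_succ (m : ℕ) (l r : C) (H : C → ℤ) :
    US (m + 1) l r H = ∑ a, if l ≠ a ∧ a ≠ r then US m a r H else 0 := by
  rw [US, sum_cons]
  refine Finset.sum_congr rfl fun a _ => ?_
  have key : ∀ z : Fin (m + 1) → C,
      ((∀ k, (Fin.cons a z : Fin (m + 2) → C) k ≠ r) ∧ l ≠ (Fin.cons a z : Fin (m + 2) → C) 0 ∧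
        (∀ k k' : Fin (m + 2), (k' : ℕ) = k + 1 →
          (Fin.cons a z : Fin (m + 2) → C) k ≠ (Fin.cons a z : Fin (m + 2) → C) k')) ↔
      (l ≠ a ∧ a ≠ r) ∧ ((∀ k, z k ≠ r) ∧ a ≠ z 0 ∧
        (∀ k k' : Fin (m + 1), (k' : ℕ) = k + 1 → z k ≠ z k')) := by
    intro z
    constructor
    · rintro ⟨h1, h2, h3⟩
      refine ⟨⟨h2, h1 0⟩, fun k => h1 k.succ, h3 0 1 rfl, fun k k' hk => ?_⟩
      exact h3 k.succ k'.succ (by simp [hk])
    · rintro ⟨⟨h1, h2⟩, h3, h4, h5⟩
      refine ⟨fun k => Fin.cases h2 (fun k => h3 k) k, h1, fun k k' => ?_⟩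
      refine Fin.cases ?_ (fun k' => ?_) k'
      · intro hk
        simp at hk
      · refine Fin.cases ?_ (fun k => ?_) k
        · intro hk
          have : k' = 0 := Fin.ext (by simpa using hk)
          subst this
          exact h4
        · intro hk
          exact h5 k k' (by simpa using hk)
  have hlast : ∀ z : Fin (m + 1) → C,
      (Fin.cons a z : Fin (m + 2) → C) (Fin.last (m + 1)) = z (Fin.last m) := by
    intro z
    rw [← Fin.succ_last, Fin.cons_succ]
  simp only [key, hlast]
  by_cases h : l ≠ a ∧ a ≠ r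
  · rw [if_pos h, US]
    refine Finset.sum_congr rfl fun z _ => ?_
    by_cases h' : (∀ k, z k ≠ r) ∧ a ≠ z 0 ∧
        (∀ k k' : Fin (m + 1), (k' : ℕ) = k + 1 → z k ≠ z k')
    · rw [if_pos ⟨h, h'⟩, if_pos h']
    · rw [if_neg (fun g => h' g.2), if_neg h']
  · rw [if_neg h]
    exact Finset.sum_eq_zero fun z _ => if_neg fun g => h g.1

theorem US_eq (m : ℕ) (l r : C) (hlr : l ≠ r) (H : C → ℤ) :
    US m l r H = (-1) ^ (m + 1) * H l +
      gq (cq C) (m + 1) * ∑ a, (if a ≠ r then H a else 0) := by
  induction m generalizing l with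
  | zero =>
    rw [US_zero, sum_excl2 l r hlr, sum_excl1]
    simp only [gq]
    ring
  | succ m ih =>
    rw [US_succ]
    have : ∀ a, (if l ≠ a ∧ a ≠ r then US m a r H else 0) = if l ≠ a ∧ a ≠ r then
        ((-1) ^ (m + 1) * H a + gq (cq C) (m + 1) * ∑ a, (if a ≠ r then H a else 0)) else 0 := by
      intro a
      by_cases h : l ≠ a ∧ a ≠ r
      · rw [if_pos h, if_pos h, ih a h.2]
      · rw [if_neg h, if_neg h]
    rw [Finset.sum_congr rfl fun a _ => this a, sum_excl2 l r hlr, Finset.sum_add_distrib,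
      ← Finset.mul_sum, sum_const', sum_excl1]
    simp only [gq]
    ring

/-- the colourings of a row -/
abbrev Row (C : Type) (m : ℕ) : Type := (Fin (m + 1) → C) × C

theorem row_sum (m : ℕ) (l r : C) (F : C → C → ℤ) :
    ∑ a : Row C m, (if RowOK m l r a.1 a.2 then F (a.1 (Fin.last m)) a.2 else 0) =
      US m l r (fun a => ∑ c, if a ≠ c ∧ c ≠ r then F a c else 0) := by
  rw [Fintype.sum_prod_type, US]
  refine Finset.sum_congr rfl fun z _ => ?_
  by_cases h : (∀ k, z k ≠ r) ∧ l ≠ z 0 ∧
      (∀ k k' : Fin (m + 1), (k' : ℕ) = k + 1 → z k ≠ z k')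
  · rw [if_pos h]
    refine Finset.sum_congr rfl fun c _ => ?_
    have : RowOK m l r z c ↔ z (Fin.last m) ≠ c ∧ c ≠ r := by
      rw [RowOK]
      exact ⟨fun g => g.2.2.2, fun g => ⟨h.1, h.2.1, h.2.2, g⟩⟩
    simp only [this]
  · rw [if_neg h]
    refine Finset.sum_eq_zero fun c _ => ?_
    rw [if_neg]
    intro g
    exact h ⟨g.1, g.2.1, g.2.2.1⟩

/-- the number of colourings of a strip -/
noncomputable def NL (m : ℕ) (h : C) (L : ℕ) (l r : C) : ℤ :=
  ∑ p : Fin L → Row C m,
    if StripOK m h L l r (fun j => (p j).1) (fun j => (p j).2) then 1 else 0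

theorem NL_zero (m : ℕ) (h l r : C) : NL m h 0 l r = if h ≠ l ∧ h ≠ r then 1 else 0 := by
  by_cases h1 : h ≠ l ∧ h ≠ r
  · simp [NL, StripOK, h1]
  · simp only [NL, StripOK, h1, if_false, Finset.sum_const_zero]

theorem NL_succ (m : ℕ) (h : C) (L : ℕ) (l r : C) : NL m h (L + 1) l r =
    US m l r (fun a => ∑ c, if a ≠ c ∧ c ≠ r then NL m h L a c else 0) := by
  rw [← row_sum, NL, sum_cons]
  refine Finset.sum_congr rfl fun a _ => ?_
  simp only [StripOK, Fin.cons_zero, Fin.cons_succ]
  by_cases hr : RowOK m l r a.1 a.2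
  · simp only [hr, true_and, if_true, NL]
  · simp only [hr, false_and, if_false, Finset.sum_const_zero]

/-- the weight of a strip as a function of the three colours -/
noncomputable def val (w : ℤ × ℤ × ℤ) (h l r : C) : ℤ :=
  if h = l then w.2.1 else if h = r then w.2.2 else w.1

omit [Fintype C] in
theorem val_l (w : ℤ × ℤ × ℤ) (l r : C) : val w l l r = w.2.1 := by simp [val]

omit [Fintype C] in
theorem val_r (w : ℤ × ℤ × ℤ) (l r : C) (h : l ≠ r) : val w r l r = w.2.2 := by
  simp [val, h.symm]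

omit [Fintype C] in
theorem val_o (w : ℤ × ℤ × ℤ) (x l r : C) (h : x ≠ l) (h' : x ≠ r) : val w x l r = w.1 := by
  simp [val, h, h']

theorem NL_eq (m : ℕ) (h : C) (L : ℕ) (l r : C) (hlr : l ≠ r) :
    NL m h L l r = val (Wt (cq C) m L) h l r := by
  induction L generalizing l r with
  | zero =>
    rw [NL_zero, val, Wt]
    by_cases h1 : h = l
    · simp [h1]
    · by_cases h2 : h = r
      · simp [h2]
      · simp [h1, h2]
  | succ L ih =>
    set w := Wt (cq C) m L with hw
    have hH : ∀ a, a ≠ r → (∑ c, if a ≠ c ∧ c ≠ r then NL m h L a c else 0) =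
        if h = r then (cq C - 2) * w.1 else
          if h = a then (cq C - 2) * w.2.1 else w.2.2 + (cq C - 3) * w.1 := by
      intro a ha
      have e1 : ∀ c, (if a ≠ c ∧ c ≠ r then NL m h L a c else 0) =
          if a ≠ c ∧ c ≠ r then val w h a c else 0 := by
        intro c
        by_cases hc : a ≠ c ∧ c ≠ r
        · rw [if_pos hc, if_pos hc, ih a c hc.1]
        · rw [if_neg hc, if_neg hc]
      rw [Finset.sum_congr rfl fun c _ => e1 c, sum_excl2 a r ha]
      by_cases h1 : h = a
      · subst h1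
        simp only [val, if_true, sum_const', ha, if_false]
        ring
      · have e2 : ∀ c, val w h a c = w.1 + if c = h then w.2.2 - w.1 else 0 := by
          intro c
          by_cases hc : c = h
          · subst hc
            simp [val, h1]
          · simp [val, h1, hc, Ne.symm hc]
        rw [Finset.sum_congr rfl fun c _ => e2 c, Finset.sum_add_distrib, sum_const']
        by_cases h2 : h = r
        · subst h2
          simp [val, h1]
          ring
        · simp [val, h1, h2]
          ring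
    rw [NL_succ, US_eq m l r hlr, hH l hlr]
    have hS : ∑ a, (if a ≠ r then (∑ c, if a ≠ c ∧ c ≠ r then NL m h L a c else 0) else 0) =
        if h = r then (cq C - 1) * ((cq C - 2) * w.1) else
          (cq C - 2) * (w.2.1 + w.2.2 + (cq C - 3) * w.1) := by
      have e1 : ∀ a, (if a ≠ r then (∑ c, if a ≠ c ∧ c ≠ r then NL m h L a c else 0) else 0) =
          if a ≠ r then (if h = r then (cq C - 2) * w.1 else
          if h = a then (cq C - 2) * w.2.1 else w.2.2 + (cq C - 3) * w.1) else 0 := by
        intro a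
        by_cases ha : a ≠ r
        · rw [if_pos ha, if_pos ha, hH a ha]
        · rw [if_neg ha, if_neg ha]
      rw [Finset.sum_congr rfl fun a _ => e1 a, sum_excl1]
      by_cases h2 : h = r
      · simp only [h2, if_true, sum_const']
        ring
      · simp only [h2, if_false]
        have e2 : ∀ a, (if h = a then (cq C - 2) * w.2.1 else w.2.2 + (cq C - 3) * w.1) =
            (w.2.2 + (cq C - 3) * w.1) + if a = h then
              ((cq C - 2) * w.2.1 - (w.2.2 + (cq C - 3) * w.1)) else 0 := by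
          intro a
          by_cases ha : a = h
          · subst ha
            simp
          · simp [ha, Ne.symm ha]
        rw [Finset.sum_congr rfl fun a _ => e2 a, Finset.sum_add_distrib, sum_const']
        simp
        ring
    rw [hS, Wt, ← hw]
    by_cases h1 : h = l
    · subst h1
      simp only [val, if_true, hlr, if_false, rowStep]
      ring
    · by_cases h2 : h = r
      · subst h2
        simp only [val, h1, if_true, if_false, rowStep]
        ring
      · simp only [val, h1, h2, if_false, rowStep]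
        ring

end Pool.Agent.H57.Chrom
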