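import Mathlib

set_option autoImplicit false

/-!
# Chromatic roots of 3-connected planar graphs: definitions
-/

namespace Pool.Agent.H57.Chrom

/-- The graph `G` can be drawn in the plane without edge crossings: the vertices are distinct points
of the plane, every edge is a simple arc between its two ends, no vertex lies inside the arc of an
edge, and the open arcs of two different edges are disjoint. -/
def IsPlanar {V : Type} (G : SimpleGraph V) : Prop :=
  ∃ (pos : V → ℝ × ℝ) (arc : Sym2 V → ℝ → ℝ × ℝ),
    Function.Injective pos ∧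
    (∀ e ∈ G.edgeSet, ContinuousOn (arc e) (Set.Icc 0 1) ∧ Set.InjOn (arc e) (Set.Icc 0 1) ∧
      ∃ u v, e = s(u, v) ∧ arc e 0 = pos u ∧ arc e 1 = pos v) ∧
    (∀ e ∈ G.edgeSet, ∀ t ∈ Set.Ioo (0 : ℝ) 1, ∀ w, arc e t ≠ pos w) ∧
    (∀ e ∈ G.edgeSet, ∀ e' ∈ G.edgeSet, e ≠ e' →
      ∀ t ∈ Set.Ioo (0 : ℝ) 1, ∀ t' ∈ Set.Ioo (0 : ℝ) 1, arc e t ≠ arc e' t')

/-- The graph `G` has at least four vertices and stays connected after deleting any set of at most
two vertices. -/
def IsThreeConnected {V : Type} [Fintype V] (G : SimpleGraph V) : Prop :=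
  4 ≤ Fintype.card V ∧ ∀ X : Finset V, X.card ≤ 2 → (G.induce {v | v ∉ X}).Connected

/-- The complex number `z` is a root of the chromatic polynomial of `G`, the polynomial whose value
at every natural number `q` is the number of proper colourings of `G` with `q` colours. -/
def IsChromaticRoot {V : Type} [Fintype V] (G : SimpleGraph V) (z : ℂ) : Prop :=
  ∃ P : Polynomial ℤ, (∀ q : ℕ, P.eval (q : ℤ) = (Nat.card (G.Coloring (Fin q)) : ℤ)) ∧
    Polynomial.aeval z P = 0

/-- The set `R` of the chromatic roots of the 3-connected planar graphs. -/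
def planarRoots : Set ℂ :=
  {z | ∃ (V : Type) (_ : Fintype V) (G : SimpleGraph V),
    IsThreeConnected G ∧ IsPlanar G ∧ IsChromaticRoot G z}

end Pool.Agent.H57.Chrom
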