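import Pool.Agent.H57.Chrom.Defs

set_option autoImplicit false

/-!
# The graphs

Two hubs, a chain with `n` edges, and above and below every edge of the chain a strip of `L` rows;
a row has `m + 1` vertices of the left strand and one vertex of the centre strand.
-/

namespace Pool.Agent.H57.Chrom

/-- the vertices -/
inductive Vx (n L m : ℕ) : Type
  | hub (σ : Bool)
  | ch (i : Fin (n + 1))
  | zz (σ : Bool) (i : Fin n) (j : Fin L) (k : Fin (m + 1))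
  | cc (σ : Bool) (i : Fin n) (j : Fin L)
  deriving DecidableEq

namespace Vx

variable {n L m : ℕ}

/-- the vertices as a sum type -/
def equiv (n L m : ℕ) : Vx n L m ≃
    (Bool ⊕ Fin (n + 1)) ⊕ ((Bool × Fin n × Fin L × Fin (m + 1)) ⊕ (Bool × Fin n × Fin L)) where
  toFun
    | hub σ => Sum.inl (Sum.inl σ)
    | ch i => Sum.inl (Sum.inr i)
    | zz σ i j k => Sum.inr (Sum.inl (σ, i, j, k))
    | cc σ i j => Sum.inr (Sum.inr (σ, i, j))
  invFun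
    | Sum.inl (Sum.inl σ) => hub σ
    | Sum.inl (Sum.inr i) => ch i
    | Sum.inr (Sum.inl (σ, i, j, k)) => zz σ i j k
    | Sum.inr (Sum.inr (σ, i, j)) => cc σ i j
  left_inv := by rintro (_ | _ | _ | _) <;> rfl
  right_inv := by rintro ((_ | _) | (⟨_, _, _, _⟩ | ⟨_, _, _⟩)) <;> rfl

instance : Fintype (Vx n L m) := Fintype.ofEquiv _ (equiv n L m).symm

/-- the edges, in one direction -/
def E : Vx n L m → Vx n L m → Prop
  | ch a, ch b => (b : ℕ) = a + 1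
  | ch a, zz _ i j k => (j : ℕ) = 0 ∧ ((a : ℕ) = i + 1 ∨ ((a : ℕ) = i ∧ (k : ℕ) = 0))
  | ch a, cc _ i j => (j : ℕ) = 0 ∧ (a : ℕ) = i + 1
  | zz σ i j k, zz σ' i' j' k' => σ = σ' ∧ i = i' ∧
      ((j = j' ∧ (k' : ℕ) = k + 1) ∨ ((j' : ℕ) = j + 1 ∧ (k : ℕ) = m ∧ (k' : ℕ) = 0))
  | zz σ i j k, cc σ' i' j' => σ = σ' ∧ i = i' ∧ j = j' ∧ (k : ℕ) = m
  | cc σ i j, zz σ' i' j' _ => σ = σ' ∧ i = i' ∧ (j' : ℕ) = j + 1
  | cc σ i j, cc σ' i' j' => σ = σ' ∧ i = i' ∧ (j' : ℕ) = j + 1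
  | zz σ _ j k, hub σ' => σ = σ' ∧ (j : ℕ) + 1 = L ∧ (k : ℕ) = m
  | cc σ _ j, hub σ' => σ = σ' ∧ (j : ℕ) + 1 = L
  | _, _ => False

end Vx

open Vx

/-- the graph -/
def Gr (n L m : ℕ) : SimpleGraph (Vx n L m) where
  Adj u v := E u v ∨ E v u
  symm := ⟨fun _ _ h => h.symm⟩
  loopless := ⟨by
    rintro (σ | i | ⟨σ, i, j, k⟩ | ⟨σ, i, j⟩) h <;> simp [E] at h⟩

end Pool.Agent.H57.Chrom
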