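import Pool.Agent.H57.Chrom.Defs

set_option autoImplicit false

/-!
# Level drawings are plane drawings
-/

namespace Pool.Agent.H57.Chrom

theorem int_frac {a b : ℤ} {s t : ℝ} (hs : s ∈ Set.Ioo (0 : ℝ) 1) (ht : t ∈ Set.Ioo (0 : ℝ) 1)
    (h : (a : ℝ) + s = b + t) : a = b ∧ s = t := by
  have h1 : a = b := by
    have h2 : (a : ℝ) - b < 1 := by linarith [hs.1, ht.2]
    have h3 : (b : ℝ) - a < 1 := by linarith [hs.2, ht.1]
    have h2' : a - b < 1 := by exact_mod_cast h2
    have h3' : b - a < 1 := by exact_mod_cast h3
    omega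
  subst h1
  exact ⟨rfl, by linarith⟩

theorem int_frac' {a b : ℤ} {s : ℝ} (hs : s ∈ Set.Ioo (0 : ℝ) 1)
    (h : (a : ℝ) + s = b) : False := by
  have h2 : (a : ℝ) < b := by linarith [hs.1]
  have h3 : (b : ℝ) < a + 1 := by linarith [hs.2]
  have h2' : a < b := by exact_mod_cast h2
  have h3' : b < a + 1 := by exact_mod_cast h3
  omega

/-- A drawing in which the vertices are integer points, every edge joins two neighbours on a
level or two vertices on adjacent levels, and the edges between two levels are in order, is a plane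
drawing. -/
theorem isPlanar_of_levels {V : Type} (G : SimpleGraph V) (x y : V → ℤ)
    (hinj : ∀ u v, x u = x v → y u = y v → u = v)
    (hE : ∀ u v, G.Adj u v → (y u = y v ∧ x v = x u + 1) ∨ (y u = y v ∧ x u = x v + 1) ∨
      y v = y u + 1 ∨ y u = y v + 1)
    (hS : ∀ u v u' v', G.Adj u v → G.Adj u' v' → y v = y u + 1 → y v' = y u' + 1 → y u = y u' →
      (x u ≤ x u' ∧ x v ≤ x v') ∨ (x u' ≤ x u ∧ x v' ≤ x v)) : IsPlanar G := by
  classical
  have hor : ∀ e : Sym2 V, ∃ p : V × V, e ∈ G.edgeSet → e = s(p.1, p.2) ∧ G.Adj p.1 p.2 ∧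
      ((y p.1 = y p.2 ∧ x p.2 = x p.1 + 1) ∨ y p.2 = y p.1 + 1) := by
    intro e
    induction e using Sym2.ind with
    | _ u v =>
      by_cases h : G.Adj u v
      · rcases hE u v h with h1 | h1 | h1 | h1
        · exact ⟨(u, v), fun _ => ⟨rfl, h, Or.inl h1⟩⟩
        · exact ⟨(v, u), fun _ => ⟨Sym2.eq_swap, h.symm, Or.inl ⟨h1.1.symm, h1.2⟩⟩⟩
        · exact ⟨(u, v), fun _ => ⟨rfl, h, Or.inr h1⟩⟩
        · exact ⟨(v, u), fun _ => ⟨Sym2.eq_swap, h.symm, Or.inr h1⟩⟩
      · exact ⟨(u, v), fun h' => absurd h' (by simpa using h)⟩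
  choose p hp using hor
  refine ⟨fun v => ((x v : ℝ), (y v : ℝ)), fun e t =>
    ((x (p e).1 : ℝ) + t * ((x (p e).2 : ℝ) - x (p e).1),
      (y (p e).1 : ℝ) + t * ((y (p e).2 : ℝ) - y (p e).1)), ?_, ?_, ?_, ?_⟩
  · intro u v h
    simp only [Prod.mk.injEq, Int.cast_inj] at h
    exact hinj u v h.1 h.2
  · intro e he
    obtain ⟨h1, h2, h3⟩ := hp e he
    refine ⟨?_, ?_, ⟨(p e).1, (p e).2, h1, ?_, ?_⟩⟩
    · fun_prop
    · intro s _ t _ hst
      simp only [Prod.mk.injEq] at hst
      rcases h3 with ⟨_, h3⟩ | h3
      · have := hst.1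
        rw [h3] at this
        push_cast at this
        linarith
      · have := hst.2
        rw [h3] at this
        push_cast at this
        linarith
    · simp
    · simp
  · intro e he t ht w hw
    obtain ⟨h1, h2, h3⟩ := hp e he
    simp only [Prod.mk.injEq] at hw
    rcases h3 with ⟨_, h3⟩ | h3
    · have := hw.1
      rw [h3] at this
      push_cast at this
      exact int_frac' ht (a := x (p e).1) (b := x w) (by linarith)
    · have := hw.2
      rw [h3] at this
      push_cast at this
      exact int_frac' ht (a := y (p e).1) (b := y w) (by linarith)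
  · intro e he e' he' hne t ht t' ht' heq
    obtain ⟨h1, h2, h3⟩ := hp e he
    obtain ⟨h1', h2', h3'⟩ := hp e' he'
    simp only [Prod.mk.injEq] at heq
    obtain ⟨hx, hy⟩ := heq
    apply hne
    rcases h3 with ⟨h4, h3⟩ | h3
    · rcases h3' with ⟨h4', h3'⟩ | h3'
      · rw [h3, h3'] at hx
        rw [← h4, ← h4'] at hy
        push_cast at hx hy
        have hyy : y (p e).1 = y (p e').1 := by
          have : (y (p e).1 : ℝ) = y (p e').1 := by linarith
          exact_mod_cast this
        obtain ⟨hxx, -⟩ := int_frac ht ht' (a := x (p e).1) (b := x (p e').1) (by linarith)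
        have e1 : (p e).1 = (p e').1 := hinj _ _ hxx hyy
        have e2 : (p e).2 = (p e').2 := hinj _ _ (by rw [h3, h3', hxx]) (by rw [← h4, ← h4', hyy])
        rw [h1, h1', e1, e2]
      · exfalso
        rw [← h4, h3'] at hy
        push_cast at hy
        exact int_frac' ht' (a := y (p e').1) (b := y (p e).1) (by linarith)
    · rcases h3' with ⟨h4', h3'⟩ | h3'
      · exfalso
        rw [← h4', h3] at hy
        push_cast at hy
        exact int_frac' ht (a := y (p e).1) (b := y (p e').1) (by linarith)
      · rw [h3, h3'] at hy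
        push_cast at hy
        obtain ⟨hyy, htt⟩ := int_frac ht ht' (a := y (p e).1) (b := y (p e').1) (by linarith)
        subst htt
        have key : x (p e).1 = x (p e').1 ∧ x (p e).2 = x (p e').2 := by
          have ht0 := ht.1
          have ht1 := ht.2
          rcases hS _ _ _ _ h2 h2' h3 h3' hyy with ⟨ha, hb⟩ | ⟨ha, hb⟩
          · have ha' : (x (p e).1 : ℝ) ≤ x (p e').1 := by exact_mod_cast ha
            have hb' : (x (p e).2 : ℝ) ≤ x (p e').2 := by exact_mod_cast hb
            have hsum : (1 - t) * ((x (p e').1 : ℝ) - x (p e).1) +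
                t * ((x (p e').2 : ℝ) - x (p e).2) = 0 := by linarith
            have n1 : 0 ≤ (1 - t) * ((x (p e').1 : ℝ) - x (p e).1) :=
              mul_nonneg (by linarith) (by linarith)
            have n2 : 0 ≤ t * ((x (p e').2 : ℝ) - x (p e).2) :=
              mul_nonneg (by linarith) (by linarith)
            have z1 : (1 - t) * ((x (p e').1 : ℝ) - x (p e).1) = 0 := by linarith
            have z2 : t * ((x (p e').2 : ℝ) - x (p e).2) = 0 := by linarith
            have z1' := (mul_eq_zero.1 z1).resolve_left (by linarith)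
            have z2' := (mul_eq_zero.1 z2).resolve_left (by linarith)
            constructor
            · have : (x (p e).1 : ℝ) = x (p e').1 := by linarith
              exact_mod_cast this
            · have : (x (p e).2 : ℝ) = x (p e').2 := by linarith
              exact_mod_cast this
          · have ha' : (x (p e').1 : ℝ) ≤ x (p e).1 := by exact_mod_cast ha
            have hb' : (x (p e').2 : ℝ) ≤ x (p e).2 := by exact_mod_cast hb
            have hsum : (1 - t) * ((x (p e).1 : ℝ) - x (p e').1) +
                t * ((x (p e).2 : ℝ) - x (p e').2) = 0 := by linarith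
            have n1 : 0 ≤ (1 - t) * ((x (p e).1 : ℝ) - x (p e').1) :=
              mul_nonneg (by linarith) (by linarith)
            have n2 : 0 ≤ t * ((x (p e).2 : ℝ) - x (p e').2) :=
              mul_nonneg (by linarith) (by linarith)
            have z1 : (1 - t) * ((x (p e).1 : ℝ) - x (p e').1) = 0 := by linarith
            have z2 : t * ((x (p e).2 : ℝ) - x (p e').2) = 0 := by linarith
            have z1' := (mul_eq_zero.1 z1).resolve_left (by linarith)
            have z2' := (mul_eq_zero.1 z2).resolve_left (by linarith)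
            constructor
            · have : (x (p e).1 : ℝ) = x (p e').1 := by linarith
              exact_mod_cast this
            · have : (x (p e).2 : ℝ) = x (p e').2 := by linarith
              exact_mod_cast this
        have e1 : (p e).1 = (p e').1 := hinj _ _ key.1 hyy
        have e2 : (p e).2 = (p e').2 := hinj _ _ key.2 (by rw [h3, h3', hyy])
        rw [h1, h1', e1, e2]

end Pool.Agent.H57.Chrom
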