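import Pool.Agent.H57.Chrom.Graph
import Pool.Agent.H57.Chrom.Planar

set_option autoImplicit false

/-!
# The graphs are planar
-/

namespace Pool.Agent.H57.Chrom

open Vx

variable {n L m : ℕ}

/-- the sign of a side -/
def sg (σ : Bool) : ℤ := if σ then -1 else 1

/-- first coordinate -/
def xc : Vx n L m → ℤ
  | hub _ => 0
  | ch i => (i : ℕ)
  | zz _ i _ k => ((i : ℕ) : ℤ) * (m + 2) + (k : ℕ)
  | cc _ i _ => ((i : ℕ) : ℤ) * (m + 2) + (m + 1)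

/-- second coordinate -/
def yc : Vx n L m → ℤ
  | hub σ => sg σ * (L + 1)
  | ch _ => 0
  | zz σ _ j _ => sg σ * ((j : ℕ) + 1)
  | cc σ _ j => sg σ * ((j : ℕ) + 1)

theorem sg_cases (σ : Bool) : (σ = false ∧ sg σ = 1) ∨ (σ = true ∧ sg σ = -1) := by
  cases σ <;> simp [sg]

/-- comparison of the positions of two strips -/
theorem strip_lt {i i' m : ℕ} (h : i < i') :
    ((i : ℕ) : ℤ) * (m + 2) + (m + 2) ≤ ((i' : ℕ) : ℤ) * (m + 2) := by
  have : ((i : ℕ) : ℤ) + 1 ≤ i' := by exact_mod_cast h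
  nlinarith

theorem strip_eq {i i' m k k' : ℕ} (hk : k ≤ m + 1) (hk' : k' ≤ m + 1)
    (h : ((i : ℕ) : ℤ) * (m + 2) + k = ((i' : ℕ) : ℤ) * (m + 2) + k') : i = i' ∧ k = k' := by
  rcases lt_trichotomy i i' with h1 | h1 | h1
  · have := strip_lt (m := m) h1
    omega
  · subst h1
    exact ⟨rfl, by omega⟩
  · have := strip_lt (m := m) h1
    omega

theorem coord_inj (u v : Vx n L m) (hx : xc u = xc v) (hy : yc u = yc v) : u = v := by
  rcases u with (σ | i | ⟨σ, i, j, k⟩ | ⟨σ, i, j⟩) <;>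
    rcases v with (σ' | i' | ⟨σ', i', j', k'⟩ | ⟨σ', i', j'⟩) <;>
    simp only [xc, yc] at hx hy
  · rcases sg_cases σ with ⟨h1, h2⟩ | ⟨h1, h2⟩ <;> rcases sg_cases σ' with ⟨h3, h4⟩ | ⟨h3, h4⟩ <;>
      rw [h2, h4] at hy <;> first | (rw [h1, h3]; done) | (exfalso; omega)
  · rcases sg_cases σ with ⟨h1, h2⟩ | ⟨h1, h2⟩ <;> rw [h2] at hy <;> exfalso <;> omega
  · have := j'.2
    rcases sg_cases σ with ⟨h1, h2⟩ | ⟨h1, h2⟩ <;> rcases sg_cases σ' with ⟨h3, h4⟩ | ⟨h3, h4⟩ <;>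
      rw [h2, h4] at hy <;> exfalso <;> omega
  · have := j'.2
    rcases sg_cases σ with ⟨h1, h2⟩ | ⟨h1, h2⟩ <;> rcases sg_cases σ' with ⟨h3, h4⟩ | ⟨h3, h4⟩ <;>
      rw [h2, h4] at hy <;> exfalso <;> omega
  · rcases sg_cases σ' with ⟨h1, h2⟩ | ⟨h1, h2⟩ <;> rw [h2] at hy <;> exfalso <;> omega
  · congr 1
    apply Fin.ext
    exact_mod_cast hx
  · rcases sg_cases σ' with ⟨h1, h2⟩ | ⟨h1, h2⟩ <;> rw [h2] at hy <;> exfalso <;> omega
  · rcases sg_cases σ' with ⟨h1, h2⟩ | ⟨h1, h2⟩ <;> rw [h2] at hy <;> exfalso <;> omega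
  · have := j.2
    rcases sg_cases σ with ⟨h1, h2⟩ | ⟨h1, h2⟩ <;> rcases sg_cases σ' with ⟨h3, h4⟩ | ⟨h3, h4⟩ <;>
      rw [h2, h4] at hy <;> exfalso <;> omega
  · rcases sg_cases σ with ⟨h1, h2⟩ | ⟨h1, h2⟩ <;> rw [h2] at hy <;> exfalso <;> omega
  · obtain ⟨h5, h6⟩ := strip_eq (by omega) (by omega) hx
    have h7 : σ = σ' ∧ (j : ℕ) = j' := by
      rcases sg_cases σ with ⟨h1, h2⟩ | ⟨h1, h2⟩ <;>
        rcases sg_cases σ' with ⟨h3, h4⟩ | ⟨h3, h4⟩ <;>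
        rw [h2, h4] at hy <;> rw [h1, h3] <;> first | exact ⟨rfl, by omega⟩ | (exfalso; omega)
    obtain ⟨h7, h8⟩ := h7
    rw [h7, Fin.ext h5, Fin.ext h6, Fin.ext h8]
  · have h5 := strip_eq (m := m) (k := k) (k' := m + 1) (by omega) (by omega) (by push_cast; exact hx)
    exfalso
    omega
  · have := j.2
    rcases sg_cases σ with ⟨h1, h2⟩ | ⟨h1, h2⟩ <;> rcases sg_cases σ' with ⟨h3, h4⟩ | ⟨h3, h4⟩ <;>
      rw [h2, h4] at hy <;> exfalso <;> omega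
  · rcases sg_cases σ with ⟨h1, h2⟩ | ⟨h1, h2⟩ <;> rw [h2] at hy <;> exfalso <;> omega
  · have h5 := strip_eq (m := m) (k := m + 1) (k' := k') (by omega) (by omega) (by push_cast; exact hx)
    exfalso
    omega
  · obtain ⟨h5, -⟩ := strip_eq (m := m) (k := m + 1) (k' := m + 1) le_rfl le_rfl (by push_cast; exact hx)
    have h7 : σ = σ' ∧ (j : ℕ) = j' := by
      rcases sg_cases σ with ⟨h1, h2⟩ | ⟨h1, h2⟩ <;>
        rcases sg_cases σ' with ⟨h3, h4⟩ | ⟨h3, h4⟩ <;>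
        rw [h2, h4] at hy <;> rw [h1, h3] <;> first | exact ⟨rfl, by omega⟩ | (exfalso; omega)
    obtain ⟨h7, h8⟩ := h7
    rw [h7, Fin.ext h5, Fin.ext h8]

/-- the position of an edge between the level `h` and the next one -/
def Pos (L m : ℕ) (h xi xo : ℤ) : Prop :=
  ∃ i : ℕ, (h = 0 ∧ ((xi = i ∧ xo = (i : ℤ) * (m + 2)) ∨
      (xi = i + 1 ∧ ∃ p : ℕ, p ≤ m + 1 ∧ xo = (i : ℤ) * (m + 2) + p))) ∨
    (0 < h ∧ ((xi = (i : ℤ) * (m + 2) + m ∧ xo = (i : ℤ) * (m + 2)) ∨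
      (xi = (i : ℤ) * (m + 2) + (m + 1) ∧ ∃ p : ℕ, p ≤ m + 1 ∧ xo = (i : ℤ) * (m + 2) + p)) ∧
      h < L) ∨
    (h = L ∧ xo = 0 ∧ 0 < h)

theorem Pos.mono {h a b a' b' : ℤ} (h1 : Pos L m h a b) (h2 : Pos L m h a' b') :
    (a ≤ a' ∧ b ≤ b') ∨ (a' ≤ a ∧ b' ≤ b) := by
  obtain ⟨i, h1⟩ := h1
  obtain ⟨i', h2⟩ := h2
  rcases lt_trichotomy i i' with hi | hi | hi
  · have hs := strip_lt (m := m) hi
    rcases h1 with ⟨h0, ⟨h3, h4⟩ | ⟨h3, p, hp, h4⟩⟩ | ⟨h0, ⟨h3, h4⟩ | ⟨h3, p, hp, h4⟩, h5⟩ |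
      ⟨h0, h3, h5⟩ <;>
    rcases h2 with ⟨k0, ⟨k3, k4⟩ | ⟨k3, p', hp', k4⟩⟩ | ⟨k0, ⟨k3, k4⟩ | ⟨k3, p', hp', k4⟩, k5⟩ |
      ⟨k0, k3, k5⟩ <;> omega
  · subst hi
    rcases h1 with ⟨h0, ⟨h3, h4⟩ | ⟨h3, p, hp, h4⟩⟩ | ⟨h0, ⟨h3, h4⟩ | ⟨h3, p, hp, h4⟩, h5⟩ |
      ⟨h0, h3, h5⟩ <;>
    rcases h2 with ⟨k0, ⟨k3, k4⟩ | ⟨k3, p', hp', k4⟩⟩ | ⟨k0, ⟨k3, k4⟩ | ⟨k3, p', hp', k4⟩, k5⟩ |
      ⟨k0, k3, k5⟩ <;> omega
  · have hs := strip_lt (m := m) hi
    rcases h1 with ⟨h0, ⟨h3, h4⟩ | ⟨h3, p, hp, h4⟩⟩ | ⟨h0, ⟨h3, h4⟩ | ⟨h3, p, hp, h4⟩, h5⟩ |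
      ⟨h0, h3, h5⟩ <;>
    rcases h2 with ⟨k0, ⟨k3, k4⟩ | ⟨k3, p', hp', k4⟩⟩ | ⟨k0, ⟨k3, k4⟩ | ⟨k3, p', hp', k4⟩, k5⟩ |
      ⟨k0, k3, k5⟩ <;> omega

/-- every edge is on a level or between adjacent levels -/
theorem E_levels (u v : Vx n L m) (h : E u v) :
    (yc u = yc v ∧ xc v = xc u + 1) ∨
    (∃ σ, 0 ≤ sg σ * yc u ∧ yc v = yc u + sg σ ∧ Pos L m (sg σ * yc u) (xc u) (xc v)) := by
  rcases u with (σ | i | ⟨σ, i, j, k⟩ | ⟨σ, i, j⟩) <;>
    rcases v with (σ' | i' | ⟨σ', i', j', k'⟩ | ⟨σ', i', j'⟩) <;>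
    simp only [E] at h
  · left
    simp only [xc, yc]
    exact ⟨trivial, by omega⟩
  · right
    refine ⟨σ', ?_, ?_, i', Or.inl ⟨?_, ?_⟩⟩
    · simp [yc]
    · simp only [yc, h.1]
      push_cast
      ring
    · simp [yc]
    · simp only [xc]
      rcases h.2 with h2 | ⟨h2, h3⟩
      · right
        exact ⟨by omega, k', by omega, rfl⟩
      · left
        exact ⟨by omega, by omega⟩
  · right
    refine ⟨σ', ?_, ?_, i', Or.inl ⟨?_, Or.inr ⟨?_, m + 1, le_rfl, ?_⟩⟩⟩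
    · simp [yc]
    · simp only [yc, h.1]
      push_cast
      ring
    · simp [yc]
    · simp only [xc]
      omega
    · simp only [xc]
      push_cast
      ring
  · right
    obtain ⟨rfl, h1, h2⟩ := h
    have hs : sg σ * sg σ = 1 := by rcases sg_cases σ with ⟨h3, h4⟩ | ⟨h3, h4⟩ <;> rw [h4] <;> norm_num
    have e : sg σ * (sg σ * (((j : ℕ) : ℤ) + 1)) = ((j : ℕ) : ℤ) + 1 := by
      rw [← mul_assoc, hs, one_mul]
    refine ⟨σ, ?_, ?_, i, Or.inr (Or.inr ⟨?_, ?_, ?_⟩)⟩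
    · simp only [yc]
      rw [e]
      positivity
    · simp only [yc]
      have : (L : ℤ) = (j : ℕ) + 1 := by exact_mod_cast h1.symm
      rw [this]
      ring
    · simp only [yc]
      rw [e]
      exact_mod_cast h1
    · simp [xc]
    · simp only [yc]
      rw [e]
      positivity
  · obtain ⟨rfl, rfl, h1⟩ := h
    rcases h1 with ⟨rfl, h1⟩ | ⟨h1, h2, h3⟩
    · left
      simp only [xc, yc]
      exact ⟨trivial, by omega⟩
    · right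
      have hs : sg σ * sg σ = 1 := by
        rcases sg_cases σ with ⟨h3, h4⟩ | ⟨h3, h4⟩ <;> rw [h4] <;> norm_num
      have e : sg σ * (sg σ * (((j : ℕ) : ℤ) + 1)) = ((j : ℕ) : ℤ) + 1 := by
        rw [← mul_assoc, hs, one_mul]
      refine ⟨σ, ?_, ?_, i, Or.inr (Or.inl ⟨?_, Or.inl ⟨?_, ?_⟩, ?_⟩)⟩
      · simp only [yc]
        rw [e]
        positivity
      · simp only [yc, h1]
        push_cast
        ring
      · simp only [yc]
        rw [e]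
        positivity
      · simp only [xc, h2]
      · simp only [xc, h3]
        simp
      · simp only [yc]
        rw [e]
        have := j'.2
        omega
  · obtain ⟨rfl, rfl, rfl, h1⟩ := h
    left
    simp only [xc, yc]
    exact ⟨trivial, by omega⟩
  · right
    obtain ⟨rfl, h1⟩ := h
    have hs : sg σ * sg σ = 1 := by
      rcases sg_cases σ with ⟨h3, h4⟩ | ⟨h3, h4⟩ <;> rw [h4] <;> norm_num
    have e : sg σ * (sg σ * (((j : ℕ) : ℤ) + 1)) = ((j : ℕ) : ℤ) + 1 := by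
      rw [← mul_assoc, hs, one_mul]
    refine ⟨σ, ?_, ?_, i, Or.inr (Or.inr ⟨?_, ?_, ?_⟩)⟩
    · simp only [yc]
      rw [e]
      positivity
    · simp only [yc]
      have : (L : ℤ) = (j : ℕ) + 1 := by exact_mod_cast h1.symm
      rw [this]
      ring
    · simp only [yc]
      rw [e]
      exact_mod_cast h1
    · simp [xc]
    · simp only [yc]
      rw [e]
      positivity
  · right
    obtain ⟨rfl, rfl, h1⟩ := h
    have hs : sg σ * sg σ = 1 := by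
      rcases sg_cases σ with ⟨h3, h4⟩ | ⟨h3, h4⟩ <;> rw [h4] <;> norm_num
    have e : sg σ * (sg σ * (((j : ℕ) : ℤ) + 1)) = ((j : ℕ) : ℤ) + 1 := by
      rw [← mul_assoc, hs, one_mul]
    refine ⟨σ, ?_, ?_, i, Or.inr (Or.inl ⟨?_, Or.inr ⟨?_, k', by omega, ?_⟩, ?_⟩)⟩
    · simp only [yc]
      rw [e]
      positivity
    · simp only [yc, h1]
      push_cast
      ring
    · simp only [yc]
      rw [e]
      positivity
    · simp only [xc]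
    · simp only [xc]
    · simp only [yc]
      rw [e]
      have := j'.2
      omega
  · right
    obtain ⟨rfl, rfl, h1⟩ := h
    have hs : sg σ * sg σ = 1 := by
      rcases sg_cases σ with ⟨h3, h4⟩ | ⟨h3, h4⟩ <;> rw [h4] <;> norm_num
    have e : sg σ * (sg σ * (((j : ℕ) : ℤ) + 1)) = ((j : ℕ) : ℤ) + 1 := by
      rw [← mul_assoc, hs, one_mul]
    refine ⟨σ, ?_, ?_, i, Or.inr (Or.inl ⟨?_, Or.inr ⟨?_, m + 1, le_rfl, ?_⟩, ?_⟩)⟩
    · simp only [yc]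
      rw [e]
      positivity
    · simp only [yc, h1]
      push_cast
      ring
    · simp only [yc]
      rw [e]
      positivity
    · simp only [xc]
    · simp only [xc]
      push_cast
      ring
    · simp only [yc]
      rw [e]
      have := j'.2
      omega

/-- an edge going one level up -/
theorem up_pos (u v : Vx n L m) (h : (Gr n L m).Adj u v) (hy : yc v = yc u + 1) :
    (0 ≤ yc u ∧ Pos L m (yc u) (xc u) (xc v)) ∨ (yc u < 0 ∧ Pos L m (-yc v) (xc v) (xc u)) := by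
  rcases h with h | h
  · rcases E_levels u v h with ⟨h1, -⟩ | ⟨σ, h1, h2, h3⟩
    · omega
    · rcases sg_cases σ with ⟨-, h4⟩ | ⟨-, h4⟩ <;> rw [h4] at h1 h2 h3
      · left
        rw [one_mul] at h3
        exact ⟨by omega, h3⟩
      · omega
  · rcases E_levels v u h with ⟨h1, -⟩ | ⟨σ, h1, h2, h3⟩
    · omega
    · rcases sg_cases σ with ⟨-, h4⟩ | ⟨-, h4⟩ <;> rw [h4] at h1 h2 h3
      · omega
      · right
        rw [neg_one_mul] at h3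
        exact ⟨by omega, h3⟩

theorem gr_isPlanar (n L m : ℕ) : IsPlanar (Gr n L m) := by
  refine isPlanar_of_levels _ xc yc coord_inj ?_ ?_
  · rintro u v (h | h)
    · rcases E_levels u v h with h1 | ⟨σ, h1, h2, h3⟩
      · exact Or.inl h1
      · rcases sg_cases σ with ⟨-, h4⟩ | ⟨-, h4⟩ <;> rw [h4] at h2 <;> omega
    · rcases E_levels v u h with h1 | ⟨σ, h1, h2, h3⟩
      · exact Or.inr (Or.inl ⟨h1.1.symm, h1.2⟩)
      · rcases sg_cases σ with ⟨-, h4⟩ | ⟨-, h4⟩ <;> rw [h4] at h2 <;> omega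
  · intro u v u' v' h h' hy hy' hyy
    rcases up_pos u v h hy with ⟨h1, h2⟩ | ⟨h1, h2⟩ <;>
      rcases up_pos u' v' h' hy' with ⟨h1', h2'⟩ | ⟨h1', h2'⟩
    · rw [← hyy] at h2'
      exact h2.mono h2'
    · omega
    · omega
    · have e : yc v' = yc v := by omega
      rw [e] at h2'
      rcases h2.mono h2' with ⟨ha, hb⟩ | ⟨ha, hb⟩
      · exact Or.inl ⟨hb, ha⟩
      · exact Or.inr ⟨hb, ha⟩

end Pool.Agent.H57.Chrom
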