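import Pool.Agent.H57.Chrom.Omega

set_option autoImplicit false

/-!
# Long rows
-/

namespace Pool.Agent.H57.Chrom

open Filter Topology

/-- multiply three numbers by a factor -/
def sc (c : ℂ) (w : ℂ × ℂ × ℂ) : ℂ × ℂ × ℂ := (c * w.1, c * w.2.1, c * w.2.2)

/-- the normalised row, `Z` is small for long rows -/
noncomputable def nStep (q Z : ℂ) (w : ℂ × ℂ × ℂ) : ℂ × ℂ × ℂ :=
  (Z * (w.2.2 + (q - 3) * w.1) / (q - 2) + (1 - Z) / (q - 1) * (w.2.1 + w.2.2 + (q - 3) * w.1),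
    Z * w.2.1 + (1 - Z) / (q - 1) * (w.2.1 + w.2.2 + (q - 3) * w.1), w.1)

/-- the normalised weights -/
noncomputable def nW (q Z : ℂ) : ℕ → ℂ × ℂ × ℂ
  | 0 => (1, 0, 0)
  | L + 1 => nStep q Z (nW q Z L)

theorem gq_eq {q : ℂ} (k : ℕ) : (q - 1) * gq q k = (q - 2) ^ k - (-1) ^ k := by
  induction k with
  | zero => simp [gq]
  | succ k ih =>
    rw [gq]
    linear_combination (q - 2) * ih

theorem rowStep_eq {q : ℂ} (h1 : q ≠ 1) (h2 : q ≠ 2) (M : ℕ) (w : ℂ × ℂ × ℂ) :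
    rowStep q ((-1) ^ M) (gq q M) w = sc ((q - 2) ^ (M + 1)) (nStep q ((-1 / (q - 2)) ^ M) w) := by
  have h1' : q - 1 ≠ 0 := sub_ne_zero.2 h1
  have h2' : q - 2 ≠ 0 := sub_ne_zero.2 h2
  have hp : (q - 2) ^ M ≠ 0 := pow_ne_zero _ h2'
  have hg : gq q M = ((q - 2) ^ M - (-1) ^ M) / (q - 1) := by
    rw [eq_div_iff h1', ← gq_eq]
    ring
  have hZ : (-1 / (q - 2)) ^ M = (-1) ^ M / (q - 2) ^ M := div_pow _ _ _
  rw [hZ, hg]
  simp only [rowStep, nStep, sc, Prod.mk.injEq]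
  refine ⟨?_, ?_, ?_⟩
  · field_simp
    ring
  · field_simp
    ring
  · rw [pow_succ]
    field_simp
    ring

theorem nStep_sc (q Z c : ℂ) (w : ℂ × ℂ × ℂ) : nStep q Z (sc c w) = sc c (nStep q Z w) := by
  simp only [nStep, sc, Prod.mk.injEq]
  refine ⟨?_, ?_, trivial⟩ <;> ring

theorem sc_sc (c d : ℂ) (w : ℂ × ℂ × ℂ) : sc c (sc d w) = sc (c * d) w := by
  simp only [sc, Prod.mk.injEq]
  refine ⟨?_, ?_, ?_⟩ <;> ring

theorem Wt_eq {q : ℂ} (h1 : q ≠ 1) (h2 : q ≠ 2) (m L : ℕ) :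
    Wt q m L = sc (((q - 2) ^ (m + 2)) ^ L) (nW q ((-1 / (q - 2)) ^ (m + 1)) L) := by
  induction L with
  | zero => simp [Wt, nW, sc]
  | succ L ih =>
    rw [Wt, ih, rowStep_eq h1 h2, nStep_sc, sc_sc, nW, pow_succ _ L]
    congr 1
    ring

theorem Eq2_sc (q c : ℂ) (w : ℂ × ℂ × ℂ) (n : ℕ) : Eq2 q (sc c w) n =
    ((c ^ 2) ^ n * (Eq2 q w n).1, (c ^ 2) ^ n * (Eq2 q w n).2) := by
  induction n with
  | zero => simp [Eq2]
  | succ n ih =>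
    rw [Eq2, ih, Eq2]
    simp only [sc, Prod.mk.injEq]
    refine ⟨?_, ?_⟩ <;> ring

theorem Ne2_sc (q c : ℂ) (w : ℂ × ℂ × ℂ) (n : ℕ) : Ne2 q (sc c w) n =
    ((c ^ 2) ^ n * (Ne2 q w n).1, (c ^ 2) ^ n * (Ne2 q w n).2) := by
  induction n with
  | zero => simp [Ne2]
  | succ n ih =>
    rw [Ne2, ih, Ne2]
    simp only [sc, Prod.mk.injEq]
    refine ⟨?_, ?_⟩ <;> ring

theorem tot_sc (q c : ℂ) (w : ℂ × ℂ × ℂ) (n : ℕ) :
    tot q (sc c w) n = (c ^ 2) ^ n * tot q w n := by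
  rw [tot, tot, Eq2_sc, Ne2_sc]
  ring

/-- the deviation of the weights of a long strip -/
noncomputable def Df (q : ℂ) (L : ℕ) : ℂ := 2 * (-1 / (q - 1)) ^ L

theorem nW_ideal {q : ℂ} (h0 : q ≠ 0) (h1 : q ≠ 1) (L : ℕ) :
    nW q 0 (L + 1) = ((q - 2 + Df q (L + 1)) / q, (q - 2 + Df q (L + 1)) / q,
      (q - 2 - (q - 1) * Df q (L + 1)) / q) := by
  have h1' : q - 1 ≠ 0 := sub_ne_zero.2 h1
  induction L with
  | zero =>
    simp only [nW, nStep, Df, Prod.mk.injEq, zero_add, pow_one]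
    refine ⟨?_, ?_, ?_⟩
    · field_simp
      ring
    · field_simp
      ring
    · field_simp
      ring
  | succ L ih =>
    rw [nW, ih]
    have e : Df q (L + 1 + 1) = -Df q (L + 1) / (q - 1) := by
      simp only [Df]
      rw [pow_succ _ (L + 1)]
      ring
    rw [e]
    simp only [nStep, Prod.mk.injEq]
    refine ⟨?_, ?_, ?_⟩
    · field_simp
      ring
    · field_simp
      ring
    · field_simp
      ring

theorem nW_ideal' {q : ℂ} (h0 : q ≠ 0) (h1 : q ≠ 1) {L : ℕ} (hL : 0 < L)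
    (hA : q - 2 + Df q L ≠ 0) :
    nW q 0 L = sc ((q - 2 + Df q L) / q) (1, 1, pf q (Df q L)) := by
  obtain ⟨L, rfl⟩ := Nat.exists_eq_succ_of_ne_zero hL.ne'
  rw [Nat.succ_eq_add_one] at *
  rw [nW_ideal h0 h1]
  simp only [sc, pf, Prod.mk.injEq]
  refine ⟨by ring, by ring, ?_⟩
  field_simp
  ring

theorem tot_ideal {q : ℂ} (h0 : q ≠ 0) (h1 : q ≠ 1) {L : ℕ} (hL : 0 < L)
    (hA : q - 2 + Df q L ≠ 0) (n : ℕ) :
    tot q (nW q 0 L) n =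
      (((q - 2 + Df q L) / q) ^ 2) ^ n * tot q (1, 1, pf q (Df q L)) n := by
  rw [nW_ideal' h0 h1 hL hA, tot_sc]

section continuity

variable {α : Type} {l : Filter α} {q Z : α → ℂ} {q1 : ℂ}

theorem nW_tendsto (h1 : q1 ≠ 1) (h2 : q1 ≠ 2) (hq : Tendsto q l (𝓝 q1))
    (hZ : Tendsto Z l (𝓝 0)) (L : ℕ) :
    Tendsto (fun x => (nW (q x) (Z x) L).1) l (𝓝 (nW q1 0 L).1) ∧
    Tendsto (fun x => (nW (q x) (Z x) L).2.1) l (𝓝 (nW q1 0 L).2.1) ∧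
    Tendsto (fun x => (nW (q x) (Z x) L).2.2) l (𝓝 (nW q1 0 L).2.2) := by
  induction L with
  | zero => exact ⟨tendsto_const_nhds, tendsto_const_nhds, tendsto_const_nhds⟩
  | succ L ih =>
    obtain ⟨g0, gl, gr⟩ := ih
    have e3 := hq.sub_const 3
    have e2 := hq.sub_const 2
    have e1 := hq.sub_const 1
    have hc := ((hZ.const_sub 1).div e1 (sub_ne_zero.2 h1)).mul ((gl.add gr).add (e3.mul g0))
    refine ⟨?_, ?_, g0⟩
    · exact ((hZ.mul (gr.add (e3.mul g0))).div e2 (sub_ne_zero.2 h2)).add hc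
    · exact (hZ.mul gl).add hc

theorem Eq2_tendsto {w : α → ℂ × ℂ × ℂ} {w1 : ℂ × ℂ × ℂ} (hq : Tendsto q l (𝓝 q1))
    (h0 : Tendsto (fun x => (w x).1) l (𝓝 w1.1)) (hl : Tendsto (fun x => (w x).2.1) l (𝓝 w1.2.1))
    (hr : Tendsto (fun x => (w x).2.2) l (𝓝 w1.2.2)) (n : ℕ) :
    Tendsto (fun x => (Eq2 (q x) (w x) n).1) l (𝓝 (Eq2 q1 w1 n).1) ∧
    Tendsto (fun x => (Eq2 (q x) (w x) n).2) l (𝓝 (Eq2 q1 w1 n).2) := by
  induction n with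
  | zero => exact ⟨tendsto_const_nhds, tendsto_const_nhds⟩
  | succ n ih =>
    obtain ⟨ga, gb⟩ := ih
    refine ⟨?_, ?_⟩
    · exact (hq.sub_const 1).mul ((hl.pow 2).mul gb)
    · exact ((hr.pow 2).mul ga).add ((hq.sub_const 2).mul ((h0.pow 2).mul gb))

theorem Ne2_tendsto {w : α → ℂ × ℂ × ℂ} {w1 : ℂ × ℂ × ℂ} (hq : Tendsto q l (𝓝 q1))
    (h0 : Tendsto (fun x => (w x).1) l (𝓝 w1.1)) (hl : Tendsto (fun x => (w x).2.1) l (𝓝 w1.2.1))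
    (hr : Tendsto (fun x => (w x).2.2) l (𝓝 w1.2.2)) (n : ℕ) :
    Tendsto (fun x => (Ne2 (q x) (w x) n).1) l (𝓝 (Ne2 q1 w1 n).1) ∧
    Tendsto (fun x => (Ne2 (q x) (w x) n).2) l (𝓝 (Ne2 q1 w1 n).2) := by
  induction n with
  | zero => exact ⟨tendsto_const_nhds, tendsto_const_nhds⟩
  | succ n ih =>
    obtain ⟨ga, gb⟩ := ih
    refine ⟨?_, ?_⟩
    · exact ((hl.mul hr).mul ga).add ((hq.sub_const 2).mul ((hl.mul h0).mul gb))
    · exact (((hr.mul h0).mul ga).const_mul 2).add ((hq.sub_const 3).mul ((h0.pow 2).mul gb))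

theorem tot_tendsto {w : α → ℂ × ℂ × ℂ} {w1 : ℂ × ℂ × ℂ} (hq : Tendsto q l (𝓝 q1))
    (h0 : Tendsto (fun x => (w x).1) l (𝓝 w1.1)) (hl : Tendsto (fun x => (w x).2.1) l (𝓝 w1.2.1))
    (hr : Tendsto (fun x => (w x).2.2) l (𝓝 w1.2.2)) (n : ℕ) :
    Tendsto (fun x => tot (q x) (w x) n) l (𝓝 (tot q1 w1 n)) := by
  obtain ⟨e1, e2⟩ := Eq2_tendsto hq h0 hl hr n
  obtain ⟨f1, f2⟩ := Ne2_tendsto hq h0 hl hr n
  exact (hq.mul (e1.add ((hq.sub_const 1).mul e2))).add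
    ((hq.mul (hq.sub_const 1)).mul ((f1.const_mul 2).add ((hq.sub_const 2).mul f2)))

end continuity

end Pool.Agent.H57.Chrom
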