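import Pool.Agent.H57.Chrom.Tools

set_option autoImplicit false

/-!
# From long rows to finite rows
-/

namespace Pool.Agent.H57.Chrom

open Filter Topology Metric

section diff

variable {q Z D p : ℂ → ℂ} {x : ℂ}

theorem nW_diff (h1 : q x ≠ 1) (h2 : q x ≠ 2) (hq : DifferentiableAt ℂ q x)
    (hZ : DifferentiableAt ℂ Z x) (L : ℕ) :
    DifferentiableAt ℂ (fun y => (nW (q y) (Z y) L).1) x ∧
    DifferentiableAt ℂ (fun y => (nW (q y) (Z y) L).2.1) x ∧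
    DifferentiableAt ℂ (fun y => (nW (q y) (Z y) L).2.2) x := by
  induction L with
  | zero => exact ⟨differentiableAt_const _, differentiableAt_const _, differentiableAt_const _⟩
  | succ L ih =>
    obtain ⟨g0, gl, gr⟩ := ih
    have e3 := hq.sub_const 3
    have e2 := hq.sub_const 2
    have e1 := hq.sub_const 1
    have hc := ((hZ.const_sub 1).div e1 (sub_ne_zero.2 h1)).mul ((gl.add gr).add (e3.mul g0))
    refine ⟨?_, ?_, g0⟩
    · exact ((hZ.mul (gr.add (e3.mul g0))).div e2 (sub_ne_zero.2 h2)).add hc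
    · exact (hZ.mul gl).add hc

theorem Eq2_diff {w : ℂ → ℂ × ℂ × ℂ} (hq : DifferentiableAt ℂ q x)
    (h0 : DifferentiableAt ℂ (fun x => (w x).1) x) (hl : DifferentiableAt ℂ (fun x => (w x).2.1) x)
    (hr : DifferentiableAt ℂ (fun x => (w x).2.2) x) (n : ℕ) :
    DifferentiableAt ℂ (fun x => (Eq2 (q x) (w x) n).1) x ∧
    DifferentiableAt ℂ (fun x => (Eq2 (q x) (w x) n).2) x := by
  induction n with
  | zero => exact ⟨differentiableAt_const _, differentiableAt_const _⟩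
  | succ n ih =>
    obtain ⟨ga, gb⟩ := ih
    refine ⟨?_, ?_⟩
    · exact (hq.sub_const 1).mul ((hl.pow 2).mul gb)
    · exact ((hr.pow 2).mul ga).add ((hq.sub_const 2).mul ((h0.pow 2).mul gb))

theorem Ne2_diff {w : ℂ → ℂ × ℂ × ℂ} (hq : DifferentiableAt ℂ q x)
    (h0 : DifferentiableAt ℂ (fun x => (w x).1) x) (hl : DifferentiableAt ℂ (fun x => (w x).2.1) x)
    (hr : DifferentiableAt ℂ (fun x => (w x).2.2) x) (n : ℕ) :
    DifferentiableAt ℂ (fun x => (Ne2 (q x) (w x) n).1) x ∧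
    DifferentiableAt ℂ (fun x => (Ne2 (q x) (w x) n).2) x := by
  induction n with
  | zero => exact ⟨differentiableAt_const _, differentiableAt_const _⟩
  | succ n ih =>
    obtain ⟨ga, gb⟩ := ih
    refine ⟨?_, ?_⟩
    · exact ((hl.mul hr).mul ga).add ((hq.sub_const 2).mul ((hl.mul h0).mul gb))
    · exact (((hr.mul h0).mul ga).const_mul 2).add ((hq.sub_const 3).mul ((h0.pow 2).mul gb))

theorem tot_diff {w : ℂ → ℂ × ℂ × ℂ} (hq : DifferentiableAt ℂ q x)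
    (h0 : DifferentiableAt ℂ (fun x => (w x).1) x) (hl : DifferentiableAt ℂ (fun x => (w x).2.1) x)
    (hr : DifferentiableAt ℂ (fun x => (w x).2.2) x) (n : ℕ) :
    DifferentiableAt ℂ (fun x => tot (q x) (w x) n) x := by
  obtain ⟨e1, e2⟩ := Eq2_diff hq h0 hl hr n
  obtain ⟨f1, f2⟩ := Ne2_diff hq h0 hl hr n
  exact (hq.mul (e1.add ((hq.sub_const 1).mul e2))).add
    ((hq.mul (hq.sub_const 1)).mul ((f1.const_mul 2).add ((hq.sub_const 2).mul f2)))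

theorem pf_diff (hq : DifferentiableAt ℂ q x) (hD : DifferentiableAt ℂ D x)
    (h : q x - 2 + D x ≠ 0) : DifferentiableAt ℂ (fun y => pf (q y) (D y)) x :=
  ((hq.mul hD).div ((hq.sub_const 2).add hD) h).const_sub 1

theorem lam_diff (h0 : q x ≠ 0) (hq : DifferentiableAt ℂ q x) (hp : DifferentiableAt ℂ p x)
    (hs : ((p x + q x - 3) ^ 2 + 4 * (q x - 1) * p x) / (q x) ^ 2 ∈ Complex.slitPlane) :
    DifferentiableAt ℂ (fun y => lam (q y) (p y)) x := by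
  have h1 : DifferentiableAt ℂ (fun y => ((p y + q y - 3) ^ 2 + 4 * (q y - 1) * p y) / (q y) ^ 2)
      x :=
    ((((hp.add hq).sub_const 3).pow 2).add (((hq.sub_const 1).const_mul 4).mul hp)).div (hq.pow 2)
      (pow_ne_zero 2 h0)
  have h2 : DifferentiableAt ℂ (fun y => s2 (q y) (p y)) x :=
    hq.mul (DifferentiableAt.comp (f := fun y => ((p y + q y - 3) ^ 2 + 4 * (q y - 1) * p y) /
      (q y) ^ 2) x (csq_differentiableAt hs) h1)
  exact (((hp.add hq).sub_const 3).add h2).div_const 2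

theorem Df_diff (h1 : q x ≠ 1) (hq : DifferentiableAt ℂ q x) (L : ℕ) :
    DifferentiableAt ℂ (fun y => Df (q y) L) x :=
  (((differentiableAt_const (-1 : ℂ)).div (hq.sub_const 1) (sub_ne_zero.2 h1)).pow L).const_mul 2

end diff

/-- the second argument -/
noncomputable def A2 (q p : ℂ) : ℂ := ((p + q - 3) ^ 2 + 4 * (q - 1) * p) / q ^ 2

/-- The good points. -/
def Good (L : ℕ) (q : ℂ) : Prop :=
  q ≠ 0 ∧ q ≠ 1 ∧ 1 < ‖q - 2‖ ∧ q - 2 + Df q L ≠ 0 ∧ A2 q (pf q (Df q L)) ∈ Complex.slitPlane ∧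
    lam q (pf q (Df q L)) ≠ 0

/-- the normaliser -/
noncomputable def nrm (L n : ℕ) (q : ℂ) : ℂ :=
  (((q - 2 + Df q L) / q) ^ 2) ^ n * lam q (pf q (Df q L)) ^ n

/-- the ideal quotient -/
noncomputable def idl (L n : ℕ) (q : ℂ) : ℂ :=
  tot q (1, 1, pf q (Df q L)) n / lam q (pf q (Df q L)) ^ n

theorem Good.ne2 {L : ℕ} {q : ℂ} (h : Good L q) : q ≠ 2 := by
  rintro rfl
  have := h.2.2.1
  norm_num at this

theorem nrm_ne {L n : ℕ} {q : ℂ} (h : Good L q) : nrm L n q ≠ 0 := by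
  obtain ⟨h0, h1, h2, h3, h4, h5⟩ := h
  exact mul_ne_zero (pow_ne_zero _ (pow_ne_zero _ (div_ne_zero h3 h0))) (pow_ne_zero _ h5)

theorem nrm_diff {L n : ℕ} {q : ℂ → ℂ} {x : ℂ} (hq : DifferentiableAt ℂ q x) (h : Good L (q x)) :
    DifferentiableAt ℂ (fun y => nrm L n (q y)) x := by
  obtain ⟨h0, h1, h2, h3, h4, h5⟩ := h
  have hD := Df_diff h1 hq L
  exact (((((hq.sub_const 2).add hD).div hq h0).pow 2).pow n).mul
    ((lam_diff h0 hq (pf_diff hq hD h3) h4).pow n)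

theorem idl_eq {L n : ℕ} (hL : 0 < L) {q : ℂ} (h : Good L q) :
    tot q (nW q 0 L) n / nrm L n q = idl L n q := by
  obtain ⟨h0, h1, h2, h3, h4, h5⟩ := h
  rw [tot_ideal h0 h1 hL h3, nrm, idl]
  rw [mul_div_mul_left]
  exact pow_ne_zero _ (pow_ne_zero _ (div_ne_zero h3 h0))

/-- the quotient of finite rows -/
noncomputable def fin (L n m : ℕ) (q : ℂ) : ℂ :=
  tot q (nW q ((-1 / (q - 2)) ^ (m + 1)) L) n / nrm L n q

theorem fin_diff {L n m : ℕ} {q : ℂ → ℂ} {x : ℂ} (hq : DifferentiableAt ℂ q x)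
    (h : Good L (q x)) : DifferentiableAt ℂ (fun y => fin L n m (q y)) x := by
  have h2 := h.ne2
  have h1 := h.2.1
  have hZ : DifferentiableAt ℂ (fun y => (-1 / (q y - 2)) ^ (m + 1)) x :=
    ((differentiableAt_const (-1 : ℂ)).div (hq.sub_const 2) (sub_ne_zero.2 h2)).pow (m + 1)
  obtain ⟨g0, gl, gr⟩ := nW_diff h1 h2 hq hZ L
  exact (tot_diff hq g0 gl gr n).div (nrm_diff hq h) (nrm_ne h)

theorem fin_tendsto {L n : ℕ} (hL : 0 < L) {q : ℂ → ℂ} {x : ℂ} (hq : DifferentiableAt ℂ q x)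
    (h : Good L (q x)) :
    Tendsto (fun z : ℕ × ℂ => fin L n z.1 (q z.2)) (atTop ×ˢ 𝓝 x) (𝓝 (idl L n (q x))) := by
  have hq' : Tendsto (fun z : ℕ × ℂ => q z.2) (atTop ×ˢ 𝓝 x) (𝓝 (q x)) :=
    hq.continuousAt.tendsto.comp tendsto_snd
  have h2 := h.ne2
  have h1 := h.2.1
  have h2' : q x - 2 ≠ 0 := sub_ne_zero.2 h2
  have hm : Tendsto (fun z : ℕ × ℂ => z.1 + 1) (atTop ×ˢ 𝓝 x) atTop :=
    (tendsto_add_atTop_nat 1).comp tendsto_fst
  have hsmall : ‖(-1 : ℂ) / (q x - 2)‖ < 1 := by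
    have := h.2.2.1
    rw [norm_div, norm_neg, norm_one, div_lt_one (by linarith)]
    exact this
  have hZ := pow_tendsto_zero ((tendsto_const_nhds (x := (-1 : ℂ))).div (hq'.sub_const 2) h2')
    hsmall hm
  obtain ⟨g0, gl, gr⟩ := nW_tendsto (L := L) h1 h2 hq' hZ
  have hn : Tendsto (fun z : ℕ × ℂ => nrm L n (q z.2)) (atTop ×ˢ 𝓝 x) (𝓝 (nrm L n (q x))) :=
    (nrm_diff (n := n) hq h).continuousAt.tendsto.comp tendsto_snd
  have := (tot_tendsto (n := n) hq' g0 gl gr).div hn (nrm_ne h)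
  rwa [idl_eq hL h] at this

theorem inner {L n : ℕ} (hL : 0 < L) {q : ℂ → ℂ} (hq : Differentiable ℂ q) {c : ℂ} {r η : ℝ}
    (hr : 0 < r) (hg : ∀ ζ ∈ closedBall c r, Good L (q ζ))
    (hs : ∀ ζ ∈ sphere c r, η < ‖idl L n (q ζ)‖) (hc : ‖idl L n (q c)‖ < η) :
    ∃ m, ∃ ζ ∈ closedBall c r, tot (q ζ) (Wt (q ζ) m L) n = 0 := by
  have e1 : ∀ᶠ m in (atTop : Filter ℕ), ∀ ζ ∈ sphere c r, η < ‖fin L n m (q ζ)‖ := by
    refine compact_ev (isCompact_sphere c r) fun ζ hζ => ?_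
    exact (fin_tendsto hL (hq ζ) (hg ζ (sphere_subset_closedBall hζ))).norm.eventually_const_lt
      (hs ζ hζ)
  have e2 : ∀ᶠ m in (atTop : Filter ℕ), ‖fin L n m (q c)‖ < η := by
    have h1 := fin_tendsto (n := n) hL (hq c) (hg c (mem_closedBall_self hr.le))
    have h2 : Tendsto (fun m : ℕ => ((m, c) : ℕ × ℂ)) atTop (atTop ×ˢ 𝓝 c) :=
      tendsto_id.prodMk tendsto_const_nhds
    exact (h1.comp h2).norm.eventually_lt_const hc
  obtain ⟨m, h1, h2⟩ := (e1.and e2).exists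
  obtain ⟨ζ, hζ, h3⟩ := exists_zero (f := fun ζ => fin L n m (q ζ)) hr
    (fun ζ hζ => (fin_diff (hq ζ) (hg ζ hζ)).differentiableWithinAt)
    (fun ζ hζ => (h1 ζ hζ).le) h2
  refine ⟨m, ζ, hζ, ?_⟩
  have hG := hg ζ hζ
  rw [Wt_eq hG.2.1 hG.ne2, tot_sc]
  have h4 : tot (q ζ) (nW (q ζ) ((-1 / (q ζ - 2)) ^ (m + 1)) L) n = 0 := by
    have h5 : tot (q ζ) (nW (q ζ) ((-1 / (q ζ - 2)) ^ (m + 1)) L) n / nrm L n (q ζ) = 0 := h3
    rcases div_eq_zero_iff.1 h5 with h6 | h6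
    · exact h6
    · exact absurd h6 (nrm_ne hG)
  rw [h4, mul_zero]

end Pool.Agent.H57.Chrom
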