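import Pool.Agent.H57.Chrom.Weights

set_option autoImplicit false

/-!
# Limits of the weights of long chains
-/

namespace Pool.Agent.H57.Chrom

open Filter Topology

/-- the square root near `1` -/
noncomputable def csq (x : ℂ) : ℂ := Complex.exp (Complex.log x / 2)

theorem csq_sq {x : ℂ} (hx : x ≠ 0) : csq x ^ 2 = x := by
  rw [csq, ← Complex.exp_nat_mul]
  have : ((2 : ℕ) : ℂ) * (Complex.log x / 2) = Complex.log x := by
    push_cast
    ring
  rw [this, Complex.exp_log hx]

theorem csq_one : csq 1 = 1 := by simp [csq]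

theorem csq_differentiableAt {x : ℂ} (hx : x ∈ Complex.slitPlane) : DifferentiableAt ℂ csq x := by
  unfold csq
  exact ((Complex.differentiableAt_log hx).div_const 2).cexp

theorem csq_tendsto {α : Type} {l : Filter α} {f : α → ℂ} (hf : Tendsto f l (𝓝 1)) :
    Tendsto (fun x => csq (f x)) l (𝓝 1) := by
  have h : ContinuousAt csq 1 := (csq_differentiableAt Complex.one_mem_slitPlane).continuousAt
  have := h.tendsto.comp hf
  rwa [csq_one] at this

/-- `(1 + y)^n → exp L` if `n y → L` and `y → 0` -/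
theorem one_add_pow_tendsto {α : Type} {l : Filter α} {y : α → ℂ} {n : α → ℕ} {L : ℂ}
    (hy : Tendsto y l (𝓝 0)) (hn : Tendsto (fun x => (n x : ℂ) * y x) l (𝓝 L)) :
    Tendsto (fun x => (1 + y x) ^ n x) l (𝓝 (Complex.exp L)) := by
  have hlog : Tendsto (fun x => (n x : ℂ) * (Complex.log (1 + y x) - y x)) l (𝓝 0) := by
    have hb : ∀ᶠ x in l, ‖(n x : ℂ) * (Complex.log (1 + y x) - y x)‖ ≤
        ‖(n x : ℂ) * y x‖ * ‖y x‖ := by
      have h1 : ∀ᶠ x in l, ‖y x‖ < 1 / 2 := by
        have := hy.norm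
        rw [norm_zero] at this
        exact this.eventually_lt_const (by norm_num)
      filter_upwards [h1] with x hx
      have h2 := Complex.norm_log_one_add_sub_self_le (z := y x) (by linarith)
      rw [norm_mul, norm_mul, mul_assoc]
      refine mul_le_mul_of_nonneg_left (h2.trans ?_) (norm_nonneg _)
      have h3 : (1 - ‖y x‖)⁻¹ ≤ 2 := by
        rw [inv_le_comm₀ (by linarith) (by norm_num)]
        linarith
      have h4 : 0 ≤ ‖y x‖ ^ 2 := by positivity
      nlinarith
    refine squeeze_zero_norm' hb ?_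
    have := hn.norm.mul hy.norm
    simpa using this
  have hsum : Tendsto (fun x => (n x : ℂ) * Complex.log (1 + y x)) l (𝓝 L) := by
    have := hlog.add hn
    simp only [zero_add] at this
    refine this.congr fun x => ?_
    ring
  have hexp := (Complex.continuous_exp.tendsto L).comp hsum
  refine hexp.congr' ?_
  have h1 : ∀ᶠ x in l, 1 + y x ≠ 0 := by
    have : Tendsto (fun x => 1 + y x) l (𝓝 (1 + 0)) := tendsto_const_nhds.add hy
    exact this.eventually_ne (by simp)
  filter_upwards [h1] with x hx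
  simp only [Function.comp]
  rw [Complex.exp_nat_mul, Complex.exp_log hx]

/-- `z ^ n → 0` if `n → ∞` and `z → z0` with `‖z0‖ < 1` -/
theorem pow_tendsto_zero {α : Type} {l : Filter α} {z : α → ℂ} {n : α → ℕ} {z0 : ℂ}
    (hz : Tendsto z l (𝓝 z0)) (h0 : ‖z0‖ < 1) (hn : Tendsto n l atTop) :
    Tendsto (fun x => z x ^ n x) l (𝓝 0) := by
  obtain ⟨r, h1, h2⟩ := exists_between h0
  have hr : 0 ≤ r := (norm_nonneg _).trans h1.le
  have hb : ∀ᶠ x in l, ‖z x ^ n x‖ ≤ r ^ n x := by
    filter_upwards [hz.norm.eventually_lt_const h1] with x hx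
    rw [norm_pow]
    exact pow_le_pow_left₀ (norm_nonneg _) hx.le _
  exact squeeze_zero_norm' hb ((tendsto_pow_atTop_nhds_zero_of_lt_one hr h2).comp hn)

/-- linear recurrences of order two -/
theorem rec2 (u : ℕ → ℂ) (a b : ℂ) (h : ∀ n, u (n + 2) = (a + b) * u (n + 1) - a * b * u n)
    (n : ℕ) : (a - b) * u n = a ^ n * (u 1 - b * u 0) - b ^ n * (u 1 - a * u 0) ∧
      (a - b) * u (n + 1) = a ^ (n + 1) * (u 1 - b * u 0) - b ^ (n + 1) * (u 1 - a * u 0) := by
  induction n with
  | zero => constructor <;> simp <;> ring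
  | succ n ih =>
    refine ⟨ih.2, ?_⟩
    rw [h n]
    linear_combination (a + b) * ih.2 - a * b * ih.1

/-- the sum in the case of equal hubs -/
def SE (q p : ℂ) (n : ℕ) : ℂ := (Eq2 q (1, 1, p) n).1 + (q - 1) * (Eq2 q (1, 1, p) n).2

/-- the sum in the case of different hubs -/
def SN (q p : ℂ) (n : ℕ) : ℂ := 2 * (Ne2 q (1, 1, p) n).1 + (q - 2) * (Ne2 q (1, 1, p) n).2

theorem tot_eq (q p : ℂ) (n : ℕ) : tot q (1, 1, p) n = q * SE q p n + q * (q - 1) * SN q p n := rfl

theorem SE_zero (q p : ℂ) : SE q p 0 = q := by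
  simp [SE, Eq2]

theorem SE_one (q p : ℂ) : SE q p 1 = (q - 1) * (p ^ 2 + q - 1) := by
  simp [SE, Eq2]
  ring

theorem SE_rec (q p : ℂ) (n : ℕ) :
    SE q p (n + 2) = (q - 2) * SE q p (n + 1) - (-(q - 1) * p ^ 2) * SE q p n := by
  simp only [SE, Eq2]
  ring

theorem SN_zero (q p : ℂ) : SN q p 0 = q := by
  simp [SN, Ne2]

theorem SN_one (q p : ℂ) : SN q p 1 = (q - 1) * (2 * p + q - 2) := by
  simp [SN, Ne2]
  ring

theorem SN_rec (q p : ℂ) (n : ℕ) :
    SN q p (n + 2) = (p + q - 3) * SN q p (n + 1) - (-(q - 1) * p) * SN q p n := by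
  simp only [SN, Ne2]
  ring

end Pool.Agent.H57.Chrom
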