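import Pool.Agent.H57.Chrom.Chain
import Pool.Agent.H57.Chrom.Connect
import Pool.Agent.H57.Chrom.GraphPlanar

set_option autoImplicit false

/-!
# The chromatic polynomials of the graphs
-/

namespace Pool.Agent.H57.Chrom

open Vx

/-- colourings as functions -/
def colEquiv (n L m : ℕ) (C : Type) :
    (Gr n L m).Coloring C ≃ {f : Vx n L m → C // ∀ u v, E u v → f u ≠ f v} where
  toFun c := ⟨fun v => c v, fun _ _ h => c.valid (Or.inl h)⟩
  invFun f := SimpleGraph.Coloring.mk f.1 (fun {u v} h => by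
    rcases h with h | h
    · exact f.2 u v h
    · exact (f.2 v u h).symm)
  left_inv c := by ext v; rfl
  right_inv f := by ext v; rfl

theorem card_coloring (n L m : ℕ) (hL : 0 < L) (q : ℕ) :
    (Nat.card ((Gr n L m).Coloring (Fin q)) : ℤ) = tot (q : ℤ) (Wt (q : ℤ) m L) n := by
  classical
  have h := count_colorings (C := Fin q) n L m hL
  have e : cq (Fin q) = (q : ℤ) := by simp [cq]
  rw [e, Fintype.card_eq_nat_card] at h
  rw [Nat.card_congr (colEquiv n L m (Fin q)), h]

/-- the chromatic polynomial -/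
noncomputable def chromPoly (n L m : ℕ) : Polynomial ℤ :=
  tot (R := Polynomial ℤ) Polynomial.X (Wt (R := Polynomial ℤ) Polynomial.X m L) n

theorem isChromaticRoot_of {n L m : ℕ} (hL : 0 < L) {z : ℂ} (h : tot z (Wt z m L) n = 0) :
    IsChromaticRoot (Gr n L m) z := by
  refine ⟨chromPoly n L m, fun q => ?_, ?_⟩
  · rw [card_coloring n L m hL q, chromPoly]
    have := map_tot (R := Polynomial ℤ) (S := ℤ) (Polynomial.evalRingHom (q : ℤ)) Polynomial.X
      (Wt (R := Polynomial ℤ) Polynomial.X m L) n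
    rw [map_Wt] at this
    simpa using this
  · rw [chromPoly]
    have := map_tot (R := Polynomial ℤ) (S := ℂ)
      (Polynomial.aeval z : Polynomial ℤ →ₐ[ℤ] ℂ).toRingHom Polynomial.X
      (Wt (R := Polynomial ℤ) Polynomial.X m L) n
    rw [map_Wt] at this
    have e : (Polynomial.aeval z : Polynomial ℤ →ₐ[ℤ] ℂ).toRingHom Polynomial.X = z := by
      simp
    rw [e, h] at this
    exact this

theorem mem_planarRoots {n L m : ℕ} (hn : 2 ≤ n) (hL : 0 < L) {z : ℂ}
    (h : tot z (Wt z m L) n = 0) : z ∈ planarRoots :=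
  ⟨Vx n L m, inferInstance, Gr n L m, gr_threeConnected hn hL, gr_isPlanar n L m,
    isChromaticRoot_of hL h⟩

end Pool.Agent.H57.Chrom
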