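import Pool.Agent.H57.Chrom.Inner
import Pool.Agent.H57.Chrom.Poly

set_option autoImplicit false

/-!
# Density of the chromatic roots outside two discs
-/

namespace Pool.Agent.H57.Chrom

open Filter Topology Metric

section limits

variable {α : Type} {l : Filter α} {q D : α → ℂ} {q0 : ℂ}

theorem lam_tendsto {p : α → ℂ} (h0 : q0 ≠ 0) (hq : Tendsto q l (𝓝 q0))
    (hp : Tendsto p l (𝓝 1)) : Tendsto (fun x => lam (q x) (p x)) l (𝓝 (q0 - 1)) := by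
  have : Tendsto (fun x => lam (q x) (p x)) l (𝓝 (((1 + q0 - 3) + q0) / 2)) :=
    (((hp.add hq).sub_const 3).add (s2_tendsto h0 hq hp)).div_const 2
  convert this using 2
  ring

theorem good_ev {s : α → ℕ} (h1 : 1 < ‖q0 - 1‖) (h2 : 1 < ‖q0 - 2‖) (hq : Tendsto q l (𝓝 q0))
    (hD : Tendsto (fun x => Df (q x) (s x)) l (𝓝 0)) : ∀ᶠ x in l, Good (s x) (q x) := by
  have h0 : q0 ≠ 0 := by
    rintro rfl
    norm_num at h1
  have h1' : q0 ≠ 1 := by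
    rintro rfl
    norm_num at h1
  have h2' : q0 ≠ 2 := by
    rintro rfl
    norm_num at h2
  have hp := pf_tendsto h2' hq hD
  have e1 := hq.eventually_ne h0
  have e2 := hq.eventually_ne h1'
  have e3 := (hq.sub_const 2).norm.eventually_const_lt h2
  have e4 : Tendsto (fun x => q x - 2 + Df (q x) (s x)) l (𝓝 (q0 - 2 + 0)) :=
    (hq.sub_const 2).add hD
  have e5 := e4.eventually_ne (by rwa [add_zero, sub_ne_zero])
  have e6 := a2_tendsto h0 hq hp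
  have e7 := e6.eventually (Complex.isOpen_slitPlane.mem_nhds Complex.one_mem_slitPlane)
  have e8 := (lam_tendsto h0 hq hp).eventually_ne (sub_ne_zero.2 h1')
  filter_upwards [e1, e2, e3, e5, e7, e8] with x g1 g2 g3 g5 g7 g8
  exact ⟨g1, g2, g3, g5, g7, g8⟩

end limits

/-- `n κ` stays away from zero and bounded -/
theorem ceil_bound {κ : ℂ} (h : κ ≠ 0) : 1 ≤ ‖((⌈1 / ‖κ‖⌉₊ : ℕ) : ℂ) * κ‖ ∧
    ‖((⌈1 / ‖κ‖⌉₊ : ℕ) : ℂ) * κ‖ ≤ 1 + ‖κ‖ := by
  have hk : 0 < ‖κ‖ := norm_pos_iff.2 h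
  rw [norm_mul, Complex.norm_natCast]
  have h1 : 1 / ‖κ‖ ≤ (⌈1 / ‖κ‖⌉₊ : ℝ) := Nat.le_ceil _
  have h2 : (⌈1 / ‖κ‖⌉₊ : ℝ) < 1 / ‖κ‖ + 1 := Nat.ceil_lt_add_one (by positivity)
  have h3 : 1 / ‖κ‖ * ‖κ‖ = 1 := by field_simp
  constructor
  · nlinarith
  · nlinarith

theorem subseq {q0 : ℂ} (h1 : 1 < ‖q0 - 1‖) (h2 : q0 ≠ 2) : ∃ (w : ℂ) (φ : ℕ → ℕ) (n : ℕ → ℕ),
    w ≠ 0 ∧ Tendsto φ atTop atTop ∧ Tendsto n atTop atTop ∧
    Tendsto (fun i => (n i : ℂ) * (4 * ((-1 / (q0 - 1)) ^ φ i) ^ 2 / (q0 - 2))) atTop (𝓝 w) := by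
  have h1' : q0 - 1 ≠ 0 := by
    intro h
    rw [h] at h1
    norm_num at h1
  have h2' : q0 - 2 ≠ 0 := sub_ne_zero.2 h2
  have ht : ‖(-1 : ℂ) / (q0 - 1)‖ < 1 := by
    rw [norm_div, norm_neg, norm_one, div_lt_one (by linarith)]
    exact h1
  set κ : ℕ → ℂ := fun s => 4 * ((-1 / (q0 - 1)) ^ s) ^ 2 / (q0 - 2) with hκ
  have hκ0 : ∀ s, κ s ≠ 0 := fun s =>
    div_ne_zero (mul_ne_zero (by norm_num)
      (pow_ne_zero _ (pow_ne_zero _ (div_ne_zero (by norm_num) h1')))) h2'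
  have hκt : Tendsto κ atTop (𝓝 0) := by
    have := (((tendsto_pow_atTop_nhds_zero_of_norm_lt_one ht).pow 2).const_mul 4).div_const
      (q0 - 2)
    simpa using this
  have hκn : Tendsto (fun s => ‖κ s‖) atTop (𝓝 0) := by simpa using hκt.norm
  obtain ⟨C, hC⟩ := hκn.bddAbove_range
  have hC' : ∀ s, ‖κ s‖ ≤ C := fun s => hC ⟨s, rfl⟩
  set N : ℕ → ℕ := fun s => ⌈1 / ‖κ s‖⌉₊ with hN
  have hNt : Tendsto N atTop atTop := by
    have h3 : Tendsto (fun s => 1 / ‖κ s‖) atTop atTop := by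
      have h4 : Tendsto (fun s => ‖κ s‖) atTop (𝓝[>] 0) :=
        tendsto_nhdsWithin_iff.2 ⟨hκn, Eventually.of_forall fun s => norm_pos_iff.2 (hκ0 s)⟩
      simp only [one_div]
      exact h4.inv_tendsto_nhdsGT_zero
    exact tendsto_nat_ceil_atTop.comp h3
  set u : ℕ → ℂ := fun s => (N s : ℂ) * κ s with hu
  have hcomp : IsCompact (closedBall (0 : ℂ) (1 + C) \ ball 0 1) :=
    (isCompact_closedBall _ _).diff isOpen_ball
  have hmem : ∀ s, u s ∈ closedBall (0 : ℂ) (1 + C) \ ball 0 1 := by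
    intro s
    obtain ⟨b1, b2⟩ := ceil_bound (hκ0 s)
    refine ⟨?_, ?_⟩
    · rw [mem_closedBall_zero_iff]
      exact b2.trans (by linarith [hC' s])
    · rw [mem_ball_zero_iff, not_lt]
      exact b1
  obtain ⟨w, hw, φ, hφ, hlim⟩ := hcomp.tendsto_subseq hmem
  refine ⟨w, φ, fun i => N (φ i), ?_, hφ.tendsto_atTop, hNt.comp hφ.tendsto_atTop, hlim⟩
  rintro rfl
  exact hw.2 (mem_ball_self one_pos)

theorem near {q0 : ℂ} (h1 : 1 < ‖q0 - 1‖) (h2 : 1 < ‖q0 - 2‖) : q0 ∈ closure planarRoots := by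
  have h0' : q0 ≠ 0 := by
    rintro rfl
    norm_num at h1
  have h1' : q0 - 1 ≠ 0 := by
    intro h
    rw [h] at h1
    norm_num at h1
  have h2'' : q0 ≠ 2 := by
    rintro rfl
    norm_num at h2
  have h2' : q0 - 2 ≠ 0 := sub_ne_zero.2 h2''
  have ht : ‖(-1 : ℂ) / (q0 - 1)‖ < 1 := by
    rw [norm_div, norm_neg, norm_one, div_lt_one (by linarith)]
    exact h1
  obtain ⟨w, φ, n, hw, hφ, hn, hlim⟩ := subseq h1 h2''
  set c : ℂ := -2 / (q0 - 1) with hc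
  have hc0 : c ≠ 0 := div_ne_zero (by norm_num) h1'
  -- the limit function
  set G : ℂ → ℂ := fun ζ => q0 ^ 2 * (Complex.exp (w * Complex.exp (c * ζ)) + (q0 - 1)) with hG
  -- the main limits
  have hQ : ∀ ζ0 : ℂ, Tendsto (fun z : ℕ × ℂ => q0 + z.2 / (φ z.1 : ℂ)) (atTop ×ˢ 𝓝 ζ0) (𝓝 q0) := by
    intro ζ0
    have g1 : Tendsto (fun z : ℕ × ℂ => ((φ z.1 : ℂ))⁻¹) (atTop ×ˢ 𝓝 ζ0) (𝓝 0) := by
      have g2 : Tendsto (fun i : ℕ => ((i : ℂ))⁻¹) atTop (𝓝 0) := tendsto_inv_atTop_nhds_zero_nat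
      exact g2.comp (hφ.comp tendsto_fst)
    have g3 := (tendsto_const_nhds (x := q0)).add
      ((tendsto_snd (f := (atTop : Filter ℕ)) (g := 𝓝 ζ0)).mul g1)
    simpa [div_eq_mul_inv] using g3
  have hφ' : ∀ ζ0 : ℂ, Tendsto (fun z : ℕ × ℂ => φ z.1) (atTop ×ˢ 𝓝 ζ0) atTop := fun ζ0 =>
    hφ.comp tendsto_fst
  have hDf : ∀ ζ0 : ℂ, Tendsto (fun z : ℕ × ℂ => Df (q0 + z.2 / (φ z.1 : ℂ)) (φ z.1))
      (atTop ×ˢ 𝓝 ζ0) (𝓝 0) := by
    intro ζ0
    have g1 := pow_tendsto_zero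
      ((tendsto_const_nhds (x := (-1 : ℂ))).div ((hQ ζ0).sub_const 1) h1') ht (hφ' ζ0)
    have g2 := g1.const_mul 2
    rwa [mul_zero] at g2
  have hW : ∀ ζ0 : ℂ, Tendsto (fun z : ℕ × ℂ =>
      (n z.1 : ℂ) * Df (q0 + z.2 / (φ z.1 : ℂ)) (φ z.1) ^ 2) (atTop ×ˢ 𝓝 ζ0)
      (𝓝 (w * (q0 - 2) * Complex.exp (c * ζ0))) := by
    intro ζ0
    have g1 : Tendsto (fun z : ℕ × ℂ => (q0 - 1) / (q0 + z.2 / (φ z.1 : ℂ) - 1) - 1)
        (atTop ×ˢ 𝓝 ζ0) (𝓝 0) := by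
      have := ((tendsto_const_nhds (x := q0 - 1)).div ((hQ ζ0).sub_const 1) h1').sub_const 1
      rwa [div_self h1', sub_self] at this
    have g2 : Tendsto (fun z : ℕ × ℂ => ((2 * φ z.1 : ℕ) : ℂ) *
        ((q0 - 1) / (q0 + z.2 / (φ z.1 : ℂ) - 1) - 1)) (atTop ×ˢ 𝓝 ζ0) (𝓝 (c * ζ0)) := by
      have g3 := ((tendsto_snd (f := (atTop : Filter ℕ)) (g := 𝓝 ζ0)).const_mul (-2)).div
        ((hQ ζ0).sub_const 1) h1'
      have e : -2 * ζ0 / (q0 - 1) = c * ζ0 := by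
        rw [hc]
        ring
      rw [e] at g3
      refine g3.congr' ?_
      filter_upwards [(hφ' ζ0).eventually_gt_atTop 0,
        ((hQ ζ0).sub_const 1).eventually_ne h1'] with z k1 k2
      have k3 : (φ z.1 : ℂ) ≠ 0 := by
        exact_mod_cast k1.ne'
      push_cast
      simp only [Pi.div_apply]
      obtain ⟨X, hX⟩ : ∃ X, X = q0 + z.2 / (φ z.1 : ℂ) - 1 := ⟨_, rfl⟩
      rw [← hX] at k2 ⊢
      have hz : z.2 = (φ z.1 : ℂ) * (X + 1 - q0) := by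
        rw [hX]
        field_simp
        ring
      rw [hz, div_eq_iff k2]
      field_simp
      ring
    have g4 := one_add_pow_tendsto g1 g2
    have g5 := ((hlim.comp (tendsto_fst (f := (atTop : Filter ℕ)) (g := 𝓝 ζ0))).mul_const
      (q0 - 2)).mul g4
    refine g5.congr' ?_
    filter_upwards [((hQ ζ0).sub_const 1).eventually_ne h1'] with z k2
    simp only [Function.comp, Df]
    have k3 : (-1 : ℂ) / (q0 + z.2 / (φ z.1 : ℂ) - 1) = (-1 / (q0 - 1)) *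
        (1 + ((q0 - 1) / (q0 + z.2 / (φ z.1 : ℂ) - 1) - 1)) := by
      field_simp
      ring
    rw [k3]
    generalize (1 + ((q0 - 1) / (q0 + z.2 / (φ z.1 : ℂ) - 1) - 1)) = A
    generalize (-1 / (q0 - 1) : ℂ) = B
    rw [mul_pow, pow_mul']
    field_simp
    ring
  have hGood : ∀ ζ0 : ℂ, ∀ᶠ z : ℕ × ℂ in atTop ×ˢ 𝓝 ζ0, Good (φ z.1) (q0 + z.2 / (φ z.1 : ℂ)) :=
    fun ζ0 => good_ev (s := fun z : ℕ × ℂ => φ z.1) h1 h2 (hQ ζ0) (hDf ζ0)
  have hidl : ∀ ζ0 : ℂ, Tendsto (fun z : ℕ × ℂ =>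
      idl (φ z.1) (n z.1) (q0 + z.2 / (φ z.1 : ℂ))) (atTop ×ˢ 𝓝 ζ0) (𝓝 (G ζ0)) := by
    intro ζ0
    have := omega_tendsto h1 h2'' (hQ ζ0) (hDf ζ0) (hn.comp tendsto_fst) (hW ζ0)
    have e : w * (q0 - 2) * Complex.exp (c * ζ0) / (q0 - 2) = w * Complex.exp (c * ζ0) := by
      field_simp
    rw [e] at this
    exact this
  -- a zero of the limit function
  have hlog : Complex.exp (Complex.log (1 - q0)) = 1 - q0 := by
    refine Complex.exp_log ?_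
    intro h
    apply h1'
    linear_combination -h
  have hlog0 : Complex.log (1 - q0) ≠ 0 := by
    intro h
    rw [h, Complex.exp_zero] at hlog
    apply h0'
    linear_combination hlog
  set ζs : ℂ := Complex.log (Complex.log (1 - q0) / w) / c with hζs
  have hin : w * Complex.exp (c * ζs) = Complex.log (1 - q0) := by
    rw [hζs, mul_div_cancel₀ _ hc0, Complex.exp_log (div_ne_zero hlog0 hw)]
    field_simp
  have hGz : G ζs = 0 := by
    simp only [hG]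
    rw [hin, hlog]
    ring
  have hGd : HasDerivAt G (q0 ^ 2 * ((1 - q0) * (Complex.log (1 - q0) * c))) ζs := by
    have d1 : HasDerivAt (fun ζ : ℂ => c * ζ) c ζs := by
      simpa using (hasDerivAt_id ζs).const_mul c
    have d2 := (((d1.cexp.const_mul w).cexp).add_const (q0 - 1)).const_mul (q0 ^ 2)
    have e : q0 ^ 2 * ((1 - q0) * (Complex.log (1 - q0) * c)) =
        q0 ^ 2 * (Complex.exp (w * Complex.exp (c * ζs)) * (w * (Complex.exp (c * ζs) * c))) := by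
      rw [← mul_assoc w, hin, hlog]
    rw [e]
    exact d2
  have hGne : ∀ᶠ z in 𝓝[≠] ζs, G z ≠ 0 := by
    refine hGd.eventually_ne ?_
    refine mul_ne_zero (pow_ne_zero _ h0') (mul_ne_zero ?_ (mul_ne_zero hlog0 hc0))
    intro h
    apply h1'
    linear_combination -h
  have hGc : Continuous G := by
    simp only [hG]
    fun_prop
  obtain ⟨r, hr, hrs⟩ : ∃ r > 0, ∀ z ∈ sphere ζs r, G z ≠ 0 := by
    rw [eventually_nhdsWithin_iff, Metric.eventually_nhds_iff] at hGne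
    obtain ⟨ε, hε, h3⟩ := hGne
    refine ⟨ε / 2, by positivity, fun z hz => h3 ?_ ?_⟩
    · rw [mem_sphere.1 hz]
      linarith
    · rintro rfl
      rw [mem_sphere, dist_self] at hz
      linarith
  obtain ⟨z1, hz1, hmin⟩ := (isCompact_sphere ζs r).exists_isMinOn
    (NormedSpace.sphere_nonempty.2 hr.le) (hGc.norm.continuousOn)
  set η : ℝ := ‖G z1‖ / 2 with hη
  have hz1' : 0 < ‖G z1‖ := norm_pos_iff.2 (hrs z1 hz1)
  have hηpos : 0 < η := by positivity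
  have hηs : ∀ z ∈ sphere ζs r, η < ‖G z‖ := by
    intro z hz
    have : ‖G z1‖ ≤ ‖G z‖ := hmin hz
    have : η < ‖G z1‖ := by
      rw [hη]
      linarith
    linarith
  -- uniform statements
  have u1 : ∀ᶠ i in (atTop : Filter ℕ), ∀ ζ ∈ closedBall ζs r, Good (φ i) (q0 + ζ / (φ i : ℂ)) :=
    compact_ev (isCompact_closedBall _ _) fun ζ _ => hGood ζ
  have u2 : ∀ᶠ i in (atTop : Filter ℕ), ∀ ζ ∈ sphere ζs r,
      η < ‖idl (φ i) (n i) (q0 + ζ / (φ i : ℂ))‖ :=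
    compact_ev (isCompact_sphere _ _) fun ζ hζ =>
      (hidl ζ).norm.eventually_const_lt (hηs ζ hζ)
  have u3 : ∀ᶠ i in (atTop : Filter ℕ), ‖idl (φ i) (n i) (q0 + ζs / (φ i : ℂ))‖ < η := by
    have g2 : Tendsto (fun i : ℕ => ((i, ζs) : ℕ × ℂ)) atTop (atTop ×ˢ 𝓝 ζs) :=
      tendsto_id.prodMk tendsto_const_nhds
    refine ((hidl ζs).comp g2).norm.eventually_lt_const ?_
    rw [hGz, norm_zero]
    exact hηpos
  have u4 : ∀ᶠ i in (atTop : Filter ℕ), 2 ≤ n i := hn.eventually_ge_atTop 2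
  have u5 : ∀ᶠ i in (atTop : Filter ℕ), 0 < φ i := hφ.eventually_gt_atTop 0
  rw [Metric.mem_closure_iff]
  intro ε hε
  have u6 : ∀ᶠ i in (atTop : Filter ℕ), (‖ζs‖ + r) / (φ i : ℝ) < ε := by
    have : Tendsto (fun i => (‖ζs‖ + r) / (φ i : ℝ)) atTop (𝓝 0) :=
      tendsto_const_nhds.div_atTop (tendsto_natCast_atTop_atTop.comp hφ)
    exact this.eventually_lt_const hε
  obtain ⟨i, k1, k2, k3, k4, k5, k6⟩ :=
    (u1.and (u2.and (u3.and (u4.and (u5.and u6))))).exists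
  obtain ⟨m, ζ, hζ, hz⟩ := inner (q := fun ζ => q0 + ζ / (φ i : ℂ)) k5
    ((differentiable_id.div_const _).const_add q0) hr k1 k2 k3
  refine ⟨q0 + ζ / (φ i : ℂ), mem_planarRoots k4 k5 hz, ?_⟩
  have k7 : (0 : ℝ) < φ i := by exact_mod_cast k5
  have k8 : ‖ζ‖ ≤ ‖ζs‖ + r := by
    have h3 : ‖ζ - ζs‖ ≤ r := by
      rw [← dist_eq_norm]
      exact hζ
    have h4 : ζ = ζs + (ζ - ζs) := by ring
    calc ‖ζ‖ = ‖ζs + (ζ - ζs)‖ := by rw [← h4]
      _ ≤ ‖ζs‖ + ‖ζ - ζs‖ := norm_add_le _ _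
      _ ≤ ‖ζs‖ + r := by linarith
  rw [dist_self_add_right, norm_div, Complex.norm_natCast]
  exact (div_le_div_of_nonneg_right k8 k7.le).trans_lt k6

end Pool.Agent.H57.Chrom
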