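import Pool.Agent.H57.Chrom.Limit

set_option autoImplicit false

/-!
# The scaling limit
-/

namespace Pool.Agent.H57.Chrom

open Filter Topology

/-- the quotient of the weights of a long strip -/
noncomputable def pf (q D : ℂ) : ℂ := 1 - q * D / (q - 2 + D)

/-- root of the first discriminant -/
noncomputable def s1 (q p : ℂ) : ℂ := q * csq (1 + 4 * (q - 1) * (p ^ 2 - 1) / q ^ 2)

/-- root of the second discriminant -/
noncomputable def s2 (q p : ℂ) : ℂ := q * csq (((p + q - 3) ^ 2 + 4 * (q - 1) * p) / q ^ 2)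

/-- the dominant eigenvalue in the case of different hubs -/
noncomputable def lam (q p : ℂ) : ℂ := ((p + q - 3) + s2 q p) / 2

theorem arg2_eq {q : ℂ} (hq : q ≠ 0) : ((1 + q - 3) ^ 2 + 4 * (q - 1) * 1) / q ^ 2 = 1 := by
  field_simp
  ring

section

variable {α : Type} {l : Filter α} {q D : α → ℂ} {q0 : ℂ}

theorem pf_tendsto (hq2 : q0 ≠ 2) (hq : Tendsto q l (𝓝 q0)) (hD : Tendsto D l (𝓝 0)) :
    Tendsto (fun x => pf (q x) (D x)) l (𝓝 1) := by
  have h1 : Tendsto (fun x => q x - 2 + D x) l (𝓝 (q0 - 2 + 0)) := (hq.sub_const 2).add hD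
  have h2 : q0 - 2 + 0 ≠ 0 := by
    rw [add_zero]
    exact sub_ne_zero.2 hq2
  have h3 := ((hq.mul hD).div h1 h2).const_sub 1
  simpa [pf] using h3

theorem a1_tendsto {p : α → ℂ} (h0 : q0 ≠ 0) (hq : Tendsto q l (𝓝 q0)) (hp : Tendsto p l (𝓝 1)) :
    Tendsto (fun x => 1 + 4 * (q x - 1) * ((p x) ^ 2 - 1) / (q x) ^ 2) l (𝓝 1) := by
  have h1 : Tendsto (fun x => 1 + 4 * (q x - 1) * ((p x) ^ 2 - 1) / (q x) ^ 2) l
      (𝓝 (1 + 4 * (q0 - 1) * (1 ^ 2 - 1) / q0 ^ 2)) :=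
    ((((hq.sub_const 1).const_mul 4).mul ((hp.pow 2).sub_const 1)).div (hq.pow 2)
      (pow_ne_zero 2 h0)).const_add 1
  simpa using h1

theorem a2_tendsto {p : α → ℂ} (h0 : q0 ≠ 0) (hq : Tendsto q l (𝓝 q0)) (hp : Tendsto p l (𝓝 1)) :
    Tendsto (fun x => ((p x + q x - 3) ^ 2 + 4 * (q x - 1) * p x) / (q x) ^ 2) l (𝓝 1) := by
  have h1 : Tendsto (fun x => ((p x + q x - 3) ^ 2 + 4 * (q x - 1) * p x) / (q x) ^ 2) l
      (𝓝 (((1 + q0 - 3) ^ 2 + 4 * (q0 - 1) * 1) / q0 ^ 2)) :=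
    ((((hp.add hq).sub_const 3).pow 2).add (((hq.sub_const 1).const_mul 4).mul hp)).div (hq.pow 2)
      (pow_ne_zero 2 h0)
  rwa [arg2_eq h0] at h1

theorem s1_tendsto {p : α → ℂ} (h0 : q0 ≠ 0) (hq : Tendsto q l (𝓝 q0)) (hp : Tendsto p l (𝓝 1)) :
    Tendsto (fun x => s1 (q x) (p x)) l (𝓝 q0) := by
  have := hq.mul (csq_tendsto (a1_tendsto h0 hq hp))
  rwa [mul_one] at this

theorem s2_tendsto {p : α → ℂ} (h0 : q0 ≠ 0) (hq : Tendsto q l (𝓝 q0)) (hp : Tendsto p l (𝓝 1)) :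
    Tendsto (fun x => s2 (q x) (p x)) l (𝓝 q0) := by
  have := hq.mul (csq_tendsto (a2_tendsto h0 hq hp))
  rwa [mul_one] at this

end

theorem s1_sq {q p : ℂ} (h0 : q ≠ 0) (h : 1 + 4 * (q - 1) * (p ^ 2 - 1) / q ^ 2 ≠ 0) :
    s1 q p ^ 2 = q ^ 2 + 4 * (q - 1) * (p ^ 2 - 1) := by
  rw [s1, mul_pow, csq_sq h]
  field_simp

theorem s2_sq {q p : ℂ} (h0 : q ≠ 0) (h : ((p + q - 3) ^ 2 + 4 * (q - 1) * p) / q ^ 2 ≠ 0) :
    s2 q p ^ 2 = (p + q - 3) ^ 2 + 4 * (q - 1) * p := by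
  rw [s2, mul_pow, csq_sq h]
  field_simp

theorem t_aux {a b c S0 S1 Sn : ℂ} {n : ℕ} (hc : c ≠ 0) (hab : a - b ≠ 0)
    (h : (a - b) * Sn = a ^ n * (S1 - b * S0) - b ^ n * (S1 - a * S0)) :
    Sn / c ^ n = ((1 + (a / c - 1)) ^ n * (S1 - b * S0) - (b / c) ^ n * (S1 - a * S0)) /
      (a - b) := by
  have e : 1 + (a / c - 1) = a / c := by ring
  have hcn := pow_ne_zero n hc
  rw [e, div_pow, div_pow, div_eq_div_iff hcn hab]
  field_simp
  linear_combination h

theorem t_aux2 {c d S0 S1 Sn : ℂ} {n : ℕ} (hc : c ≠ 0) (hcd : c - d ≠ 0)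
    (h : (c - d) * Sn = c ^ n * (S1 - d * S0) - d ^ n * (S1 - c * S0)) :
    Sn / c ^ n = (S1 - d * S0 - (d / c) ^ n * (S1 - c * S0)) / (c - d) := by
  have hcn := pow_ne_zero n hc
  rw [div_pow, div_eq_div_iff hcn hcd]
  field_simp
  linear_combination h

/-- The scaling limit. -/
theorem omega_tendsto {α : Type} {l : Filter α} {q D : α → ℂ} {n : α → ℕ} {q0 W : ℂ}
    (h1 : 1 < ‖q0 - 1‖) (hq2 : q0 ≠ 2) (hq : Tendsto q l (𝓝 q0)) (hD : Tendsto D l (𝓝 0))
    (hn : Tendsto n l atTop) (hW : Tendsto (fun x => (n x : ℂ) * D x ^ 2) l (𝓝 W)) :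
    Tendsto (fun x => tot (q x) (1, 1, pf (q x) (D x)) (n x) / lam (q x) (pf (q x) (D x)) ^ n x) l
      (𝓝 (q0 ^ 2 * (Complex.exp (W / (q0 - 2)) + (q0 - 1)))) := by
  have h0 : q0 ≠ 0 := by
    rintro rfl
    norm_num at h1
  have h1' : q0 - 1 ≠ 0 := by
    intro h
    rw [h] at h1
    norm_num at h1
  have h2' : q0 - 2 ≠ 0 := sub_ne_zero.2 hq2
  set p : α → ℂ := fun x => pf (q x) (D x) with hp_def
  have hp : Tendsto p l (𝓝 1) := pf_tendsto hq2 hq hD
  have hs1 : Tendsto (fun x => s1 (q x) (p x)) l (𝓝 q0) := s1_tendsto h0 hq hp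
  have hs2 : Tendsto (fun x => s2 (q x) (p x)) l (𝓝 q0) := s2_tendsto h0 hq hp
  set a : α → ℂ := fun x => ((q x - 2) + s1 (q x) (p x)) / 2 with ha_def
  set b : α → ℂ := fun x => ((q x - 2) - s1 (q x) (p x)) / 2 with hb_def
  set c : α → ℂ := fun x => lam (q x) (p x) with hc_def
  set d : α → ℂ := fun x => ((p x + q x - 3) - s2 (q x) (p x)) / 2 with hd_def
  have ha : Tendsto a l (𝓝 (q0 - 1)) := by
    have : Tendsto a l (𝓝 (((q0 - 2) + q0) / 2)) := ((hq.sub_const 2).add hs1).div_const 2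
    convert this using 2
    ring
  have hb : Tendsto b l (𝓝 (-1)) := by
    have : Tendsto b l (𝓝 (((q0 - 2) - q0) / 2)) := ((hq.sub_const 2).sub hs1).div_const 2
    convert this using 2
    ring
  have hc : Tendsto c l (𝓝 (q0 - 1)) := by
    have : Tendsto c l (𝓝 (((1 + q0 - 3) + q0) / 2)) :=
      (((hp.add hq).sub_const 3).add hs2).div_const 2
    convert this using 2
    ring
  have hd : Tendsto d l (𝓝 (-1)) := by
    have : Tendsto d l (𝓝 (((1 + q0 - 3) - q0) / 2)) :=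
      (((hp.add hq).sub_const 3).sub hs2).div_const 2
    convert this using 2
    ring
  -- the eventual algebraic identities
  have ev : ∀ᶠ x in l, (a x + b x = q x - 2 ∧ a x * b x = -(q x - 1) * p x ^ 2) ∧
      (c x + d x = p x + q x - 3 ∧ c x * d x = -(q x - 1) * p x) := by
    have e1 := hq.eventually_ne h0
    have e2 := (a1_tendsto h0 hq hp).eventually_ne one_ne_zero
    have e3 := (a2_tendsto h0 hq hp).eventually_ne one_ne_zero
    filter_upwards [e1, e2, e3] with x g1 g2 g3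
    have k1 := s1_sq g1 g2
    have k2 := s2_sq g1 g3
    refine ⟨⟨?_, ?_⟩, ?_, ?_⟩
    · simp only [ha_def, hb_def]
      ring
    · simp only [ha_def, hb_def]
      linear_combination (-1 / 4) * k1
    · simp only [hc_def, hd_def, lam]
      ring
    · simp only [hc_def, hd_def, lam]
      linear_combination (-1 / 4) * k2
  -- the quotient of the dominant eigenvalues
  have hcne : ∀ᶠ x in l, c x ≠ 0 := hc.eventually_ne h1'
  have hden1 : Tendsto (fun x => a x + c x - (q x - 2)) l (𝓝 q0) := by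
    have : Tendsto (fun x => a x + c x - (q x - 2)) l (𝓝 ((q0 - 1) + (q0 - 1) - (q0 - 2))) :=
      (ha.add hc).sub (hq.sub_const 2)
    convert this using 2
    ring
  have hden2 : Tendsto (fun x => (q x - 1) * p x - d x) l (𝓝 q0) := by
    have : Tendsto (fun x => (q x - 1) * p x - d x) l (𝓝 ((q0 - 1) * 1 - (-1))) :=
      ((hq.sub_const 1).mul hp).sub hd
    convert this using 2
    ring
  have hdelta : Tendsto (fun x => (n x : ℂ) * (p x - 1) ^ 2) l
      (𝓝 (W * (q0 / (q0 - 2)) ^ 2)) := by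
    have g1 : Tendsto (fun x => q x - 2 + D x) l (𝓝 (q0 - 2 + 0)) := (hq.sub_const 2).add hD
    have g2 : q0 - 2 + 0 ≠ 0 := by rwa [add_zero]
    have g3 := hW.mul ((hq.div g1 g2).pow 2)
    rw [add_zero] at g3
    refine g3.congr fun x => ?_
    simp only [hp_def, pf, Pi.div_apply]
    ring
  have hquot : Tendsto (fun x => (n x : ℂ) * (a x / c x - 1)) l (𝓝 (W / (q0 - 2))) := by
    have g1 : Tendsto (fun x => (n x : ℂ) * (p x - 1) ^ 2 * ((q x - 1) * (q x - 2) * p x) /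
        (c x * ((a x + c x - (q x - 2)) * ((q x - 1) * p x - d x)))) l
        (𝓝 (W * (q0 / (q0 - 2)) ^ 2 * ((q0 - 1) * (q0 - 2) * 1) / ((q0 - 1) * (q0 * q0)))) :=
      (hdelta.mul (((hq.sub_const 1).mul (hq.sub_const 2)).mul hp)).div
        (hc.mul (hden1.mul hden2)) (mul_ne_zero h1' (mul_ne_zero h0 h0))
    have g2 : W * (q0 / (q0 - 2)) ^ 2 * ((q0 - 1) * (q0 - 2) * 1) / ((q0 - 1) * (q0 * q0)) =
        W / (q0 - 2) := by
      field_simp
    rw [g2] at g1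
    refine g1.congr' ?_
    filter_upwards [ev, hcne, hden1.eventually_ne h0, hden2.eventually_ne h0]
      with x ⟨⟨f1, f2⟩, f3, f4⟩ f5 f6 f7
    have f8 : (a x - c x) * ((a x + c x - (q x - 2)) * ((q x - 1) * p x - d x)) =
        (p x - 1) ^ 2 * ((q x - 1) * (q x - 2) * p x) := by
      have hb' : b x = q x - 2 - a x := by linear_combination f1
      have hd' : d x = p x + q x - 3 - c x := by linear_combination f3
      have ra : a x ^ 2 - (q x - 2) * a x - (q x - 1) * p x ^ 2 = 0 := by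
        rw [hb'] at f2
        linear_combination -f2
      have rc : c x ^ 2 - (p x + q x - 3) * c x - (q x - 1) * p x = 0 := by
        rw [hd'] at f4
        linear_combination -f4
      rw [hd']
      linear_combination ((q x - 1) * p x - (p x + q x - 3 - c x)) * ra -
        (((q x - 1) * p x - (p x + q x - 3 - c x)) + (p x - 1)) * rc
    rw [div_eq_iff (mul_ne_zero f5 (mul_ne_zero f6 f7))]
    field_simp
    linear_combination (-(n x : ℂ)) * f8
  have hq1 : Tendsto (fun x => a x / c x - 1) l (𝓝 0) := by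
    have : Tendsto (fun x => a x / c x - 1) l (𝓝 ((q0 - 1) / (q0 - 1) - 1)) :=
      (ha.div hc h1').sub_const 1
    rwa [div_self h1', sub_self] at this
  have hpow := one_add_pow_tendsto hq1 hquot
  -- the small eigenvalues
  have hsmall : ‖(-1 : ℂ) / (q0 - 1)‖ < 1 := by
    rw [norm_div, norm_neg, norm_one, div_lt_one (by linarith)]
    exact h1
  have hbp := pow_tendsto_zero (hb.div hc h1') hsmall hn
  have hdp := pow_tendsto_zero (hd.div hc h1') hsmall hn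
  -- the four coefficients
  have hS1 : Tendsto (fun x => SE (q x) (p x) 1) l (𝓝 ((q0 - 1) * (1 ^ 2 + q0 - 1))) := by
    simp only [SE_one]
    exact (hq.sub_const 1).mul (((hp.pow 2).add hq).sub_const 1)
  have hR1 : Tendsto (fun x => SN (q x) (p x) 1) l (𝓝 ((q0 - 1) * (2 * 1 + q0 - 2))) := by
    simp only [SN_one]
    exact (hq.sub_const 1).mul (((hp.const_mul 2).add hq).sub_const 2)
  have hab : Tendsto (fun x => a x - b x) l (𝓝 ((q0 - 1) - (-1))) := ha.sub hb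
  have hcd : Tendsto (fun x => c x - d x) l (𝓝 ((q0 - 1) - (-1))) := hc.sub hd
  have hne : (q0 - 1) - (-1) ≠ 0 := by
    have : (q0 - 1) - (-1) = q0 := by ring
    rwa [this]
  have lim : Tendsto (fun x => q x * (((1 + (a x / c x - 1)) ^ n x * (SE (q x) (p x) 1 - b x * q x) -
      (b x / c x) ^ n x * (SE (q x) (p x) 1 - a x * q x)) / (a x - b x)) +
      q x * (q x - 1) * ((SN (q x) (p x) 1 - d x * q x -
      (d x / c x) ^ n x * (SN (q x) (p x) 1 - c x * q x)) / (c x - d x))) l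
      (𝓝 (q0 * ((Complex.exp (W / (q0 - 2)) * ((q0 - 1) * (1 ^ 2 + q0 - 1) - (-1) * q0) -
        0 * ((q0 - 1) * (1 ^ 2 + q0 - 1) - (q0 - 1) * q0)) / ((q0 - 1) - (-1))) +
        q0 * (q0 - 1) * (((q0 - 1) * (2 * 1 + q0 - 2) - (-1) * q0 -
        0 * ((q0 - 1) * (2 * 1 + q0 - 2) - (q0 - 1) * q0)) / ((q0 - 1) - (-1))))) := by
    refine (hq.mul (((hpow.mul (hS1.sub (hb.mul hq))).sub
      (hbp.mul (hS1.sub (ha.mul hq)))).div hab hne)).add
      ((hq.mul (hq.sub_const 1)).mul (((hR1.sub (hd.mul hq)).sub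
      (hdp.mul (hR1.sub (hc.mul hq)))).div hcd hne))
  have hval : q0 * ((Complex.exp (W / (q0 - 2)) * ((q0 - 1) * (1 ^ 2 + q0 - 1) - (-1) * q0) -
        0 * ((q0 - 1) * (1 ^ 2 + q0 - 1) - (q0 - 1) * q0)) / ((q0 - 1) - (-1))) +
        q0 * (q0 - 1) * (((q0 - 1) * (2 * 1 + q0 - 2) - (-1) * q0 -
        0 * ((q0 - 1) * (2 * 1 + q0 - 2) - (q0 - 1) * q0)) / ((q0 - 1) - (-1))) =
      q0 ^ 2 * (Complex.exp (W / (q0 - 2)) + (q0 - 1)) := by
    have : (q0 - 1) - (-1) = q0 := by ring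
    rw [this]
    field_simp
    ring
  rw [hval] at lim
  refine lim.congr' ?_
  filter_upwards [ev, hcne, hab.eventually_ne hne, hcd.eventually_ne hne]
    with x ⟨⟨f1, f2⟩, f3, f4⟩ f5 f6 f7
  have r1 := (rec2 (SE (q x) (p x)) (a x) (b x) (fun k => by
    rw [SE_rec, f1, f2]) (n x)).1
  have r2 := (rec2 (SN (q x) (p x)) (c x) (d x) (fun k => by
    rw [SN_rec, f3, f4]) (n x)).1
  rw [SE_zero] at r1
  rw [SN_zero] at r2
  rw [← t_aux f5 f6 r1, ← t_aux2 f5 f7 r2, tot_eq]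
  simp only [hc_def]
  ring

end Pool.Agent.H57.Chrom
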