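import Pool.Agent.H57.Chrom.Graph

set_option autoImplicit false

/-!
# Colourings of a strip
-/

namespace Pool.Agent.H57.Chrom

/-- a proper colouring of a row: `l`, `r` are the colours of the two vertices below -/
def RowOK {C : Type} (m : ℕ) (l r : C) (z : Fin (m + 1) → C) (c : C) : Prop :=
  (∀ k, z k ≠ r) ∧ l ≠ z 0 ∧ (∀ k k' : Fin (m + 1), (k' : ℕ) = k + 1 → z k ≠ z k') ∧
    z (Fin.last m) ≠ c ∧ c ≠ r

/-- a proper colouring of a strip, `h` is the colour of the hub -/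
def StripOK {C : Type} (m : ℕ) (h : C) :
    (L : ℕ) → C → C → (Fin L → Fin (m + 1) → C) → (Fin L → C) → Prop
  | 0, l, r, _, _ => h ≠ l ∧ h ≠ r
  | L + 1, l, r, z, c => RowOK m l r (z 0) (c 0) ∧
      StripOK m h L (z 0 (Fin.last m)) (c 0) (fun j => z j.succ) (fun j => c j.succ)

theorem stripOK_iff {C : Type} {m : ℕ} {h : C} {L : ℕ} {l r : C} {z : Fin L → Fin (m + 1) → C}
    {c : Fin L → C} : StripOK m h L l r z c ↔
      (∀ j : Fin L, (j : ℕ) = 0 → (∀ k, z j k ≠ r) ∧ l ≠ z j 0 ∧ c j ≠ r) ∧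
      (∀ (j : Fin L) (k k' : Fin (m + 1)), (k' : ℕ) = k + 1 → z j k ≠ z j k') ∧
      (∀ j : Fin L, z j (Fin.last m) ≠ c j) ∧
      (∀ j j' : Fin L, (j' : ℕ) = j + 1 → (∀ k, z j' k ≠ c j) ∧ z j (Fin.last m) ≠ z j' 0 ∧
        c j' ≠ c j) ∧
      (∀ j : Fin L, (j : ℕ) + 1 = L → h ≠ z j (Fin.last m) ∧ h ≠ c j) ∧
      (L = 0 → h ≠ l ∧ h ≠ r) := by
  induction L generalizing l r with
  | zero => simp [StripOK]
  | succ L ih =>
    rw [StripOK, ih, RowOK]
    constructor
    · rintro ⟨⟨h1, h2, h3, h4, h5⟩, h6, h7, h8, h9, h10, h11⟩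
      refine ⟨?_, ?_, ?_, ?_, ?_, ?_⟩
      · intro j hj
        have : j = 0 := Fin.ext hj
        subst this
        exact ⟨h1, h2, h5⟩
      · intro j
        refine Fin.cases h3 (fun j => h7 j) j
      · intro j
        refine Fin.cases h4 (fun j => h8 j) j
      · intro j j' hj
        revert hj
        refine Fin.cases ?_ (fun j' => ?_) j'
        · intro hj
          simp at hj
        · refine Fin.cases ?_ (fun j => ?_) j
          · intro hj
            exact h6 j' (by simpa using hj)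
          · intro hj
            exact h9 j j' (by simpa using hj)
      · intro j
        refine Fin.cases ?_ (fun j => ?_) j
        · intro hj
          exact h11 (by simpa using hj)
        · intro hj
          exact h10 j (by simpa using hj)
      · intro hL
        omega
    · rintro ⟨h6, h7, h8, h9, h10, h11⟩
      refine ⟨⟨(h6 0 rfl).1, (h6 0 rfl).2.1, h7 0, h8 0, (h6 0 rfl).2.2⟩, ?_, ?_, ?_, ?_, ?_, ?_⟩
      · intro j hj
        exact h9 0 j.succ (by simp [hj])
      · intro j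
        exact h7 j.succ
      · intro j
        exact h8 j.succ
      · intro j j' hj
        exact h9 j.succ j'.succ (by simp [hj])
      · intro j hj
        exact h10 j.succ (by simp [hj])
      · intro hL
        exact h10 0 (by simp [hL])

open Vx

/-- proper colourings of the graph, strip by strip -/
theorem coloring_iff {n L m : ℕ} (hL : 0 < L) {C : Type} (f : Vx n L m → C) :
    (∀ u v, E u v → f u ≠ f v) ↔
      (∀ i : Fin n, f (ch i.castSucc) ≠ f (ch i.succ)) ∧
      ∀ σ i, StripOK m (f (hub σ)) L (f (ch i.castSucc)) (f (ch i.succ))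
        (fun j k => f (zz σ i j k)) (fun j => f (cc σ i j)) := by
  constructor
  · intro h
    refine ⟨fun i => h _ _ ?_, fun σ i => stripOK_iff.2 ⟨?_, ?_, ?_, ?_, ?_, ?_⟩⟩
    · simp [E]
    · intro j hj
      refine ⟨fun k => (h (ch i.succ) (zz σ i j k) ⟨hj, Or.inl (by simp)⟩).symm,
        h (ch i.castSucc) (zz σ i j 0) ⟨hj, Or.inr ⟨rfl, rfl⟩⟩,
        (h (ch i.succ) (cc σ i j) ⟨hj, by simp⟩).symm⟩
    · intro j k k' hk
      exact h _ _ ⟨rfl, rfl, Or.inl ⟨rfl, hk⟩⟩
    · intro j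
      exact h _ _ ⟨rfl, rfl, rfl, rfl⟩
    · intro j j' hj
      refine ⟨fun k => (h (cc σ i j) (zz σ i j' k) ⟨rfl, rfl, hj⟩).symm,
        h _ _ ⟨rfl, rfl, Or.inr ⟨hj, rfl, rfl⟩⟩,
        (h (cc σ i j) (cc σ i j') ⟨rfl, rfl, hj⟩).symm⟩
    · intro j hj
      exact ⟨(h (zz σ i j (Fin.last m)) (hub σ) ⟨rfl, hj, rfl⟩).symm,
        (h (cc σ i j) (hub σ) ⟨rfl, hj⟩).symm⟩
    · intro h0
      omega
  · rintro ⟨h1, h2⟩ u v huv
    rcases u with (σ | a | ⟨σ, i, j, k⟩ | ⟨σ, i, j⟩) <;>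
      rcases v with (σ' | a' | ⟨σ', i', j', k'⟩ | ⟨σ', i', j'⟩) <;> simp only [E] at huv
    · obtain ⟨a, ha⟩ := a
      obtain ⟨a', ha'⟩ := a'
      simp only at huv
      subst huv
      exact h1 ⟨a, by omega⟩
    · obtain ⟨g1, g2, g3, g4, g5, g6⟩ := stripOK_iff.1 (h2 σ' i')
      obtain ⟨h3, h4 | ⟨h4, h5⟩⟩ := huv
      · have : a = i'.succ := Fin.ext (by simpa using h4)
        subst this
        exact ((g1 j' h3).1 k').symm
      · have : a = i'.castSucc := Fin.ext (by simpa using h4)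
        subst this
        have : k' = 0 := Fin.ext h5
        subst this
        exact (g1 j' h3).2.1
    · obtain ⟨g1, g2, g3, g4, g5, g6⟩ := stripOK_iff.1 (h2 σ' i')
      have : a = i'.succ := Fin.ext (by simpa using huv.2)
      subst this
      exact (g1 j' huv.1).2.2.symm
    · obtain ⟨rfl, h3, h4⟩ := huv
      obtain ⟨g1, g2, g3, g4, g5, g6⟩ := stripOK_iff.1 (h2 σ i)
      have : k = Fin.last m := Fin.ext h4
      subst this
      exact (g5 j h3).1.symm
    · obtain ⟨rfl, rfl, h3⟩ := huv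
      obtain ⟨g1, g2, g3, g4, g5, g6⟩ := stripOK_iff.1 (h2 σ i)
      rcases h3 with ⟨rfl, h3⟩ | ⟨h3, h4, h5⟩
      · exact g2 j k k' h3
      · have : k = Fin.last m := Fin.ext h4
        subst this
        have : k' = 0 := Fin.ext h5
        subst this
        exact (g4 j j' h3).2.1
    · obtain ⟨rfl, rfl, rfl, h4⟩ := huv
      obtain ⟨g1, g2, g3, g4, g5, g6⟩ := stripOK_iff.1 (h2 σ i)
      have : k = Fin.last m := Fin.ext h4
      subst this
      exact g3 j
    · obtain ⟨rfl, h3⟩ := huv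
      obtain ⟨g1, g2, g3, g4, g5, g6⟩ := stripOK_iff.1 (h2 σ i)
      exact (g5 j h3).2.symm
    · obtain ⟨rfl, rfl, h3⟩ := huv
      obtain ⟨g1, g2, g3, g4, g5, g6⟩ := stripOK_iff.1 (h2 σ i)
      exact ((g4 j j' h3).1 k').symm
    · obtain ⟨rfl, rfl, h3⟩ := huv
      obtain ⟨g1, g2, g3, g4, g5, g6⟩ := stripOK_iff.1 (h2 σ i)
      exact (g4 j j' h3).2.2.symm

end Pool.Agent.H57.Chrom
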