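import Pool.Agent.H57.Chrom.Ideal

set_option autoImplicit false

/-!
# Two analytic tools
-/

namespace Pool.Agent.H57.Chrom

open Filter Topology Metric

theorem compact_ev {α β : Type} [TopologicalSpace β] {l : Filter α} {K : Set β} (hK : IsCompact K)
    {P : α → β → Prop} (h : ∀ y ∈ K, ∀ᶠ z in l ×ˢ 𝓝 y, P z.1 z.2) :
    ∀ᶠ x in l, ∀ y ∈ K, P x y := by
  have h1 : {z : α × β | P z.1 z.2} ∈ l ×ˢ 𝓝ˢ K := hK.mem_prod_nhdsSet_of_forall h
  have h2 : ∀ᶠ z in l ×ˢ 𝓝ˢ K, P z.1 z.2 := h1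
  exact h2.curry.mono fun _ h => h.self_of_nhdsSet

/-- a consequence of the maximum principle -/
theorem exists_zero {f : ℂ → ℂ} {c : ℂ} {r ε : ℝ} (hr : 0 < r)
    (hf : DifferentiableOn ℂ f (closedBall c r)) (hs : ∀ z ∈ sphere c r, ε ≤ ‖f z‖)
    (hc : ‖f c‖ < ε) : ∃ z ∈ closedBall c r, f z = 0 := by
  by_contra hcon
  push Not at hcon
  have hε : 0 < ε := (norm_nonneg _).trans_lt hc
  have hcl : closure (ball c r) = closedBall c r := closure_ball c hr.ne'
  have hd : DiffContOnCl ℂ f (ball c r) := DifferentiableOn.diffContOnCl (by rwa [hcl])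
  have hd' : DiffContOnCl ℂ f⁻¹ (ball c r) := hd.inv (by rwa [hcl])
  have h1 : ‖f⁻¹ c‖ ≤ ε⁻¹ := by
    refine Complex.norm_le_of_forall_mem_frontier_norm_le isBounded_ball hd' ?_
      (subset_closure (mem_ball_self hr))
    intro z hz
    rw [frontier_ball c hr.ne'] at hz
    rw [Pi.inv_apply, norm_inv]
    exact inv_anti₀ hε (hs z hz)
  rw [Pi.inv_apply, norm_inv] at h1
  have h2 : 0 < ‖f c‖ := norm_pos_iff.2 (hcon c (mem_closedBall_self hr.le))
  have h3 := (inv_le_inv₀ h2 hε).1 h1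
  linarith

end Pool.Agent.H57.Chrom
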